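import Pool.Agent.Helper2.LD.St2

/-!
# LD project: module DecY
-/

set_option autoImplicit false

namespace Pool.Agent.Helper32.LD

open Pool.Agent.Helper2.LD

section DecY

variable {X K : Type} {P : SimpleGraph X} {L : X → Finset K}

theorem dep_unique {x : X} {d d' : ℕ} (h : Dep P L x d) (h' : Dep P L x d') : d = d' := by
  obtain ⟨⟨s, hs, e⟩, m⟩ := h
  obtain ⟨⟨s', hs', e'⟩, m'⟩ := h'
  have h1 := m s' hs'
  have h2 := m' s hs
  rw [e'] at h1
  rw [e] at h2
  have h1' : d ≤ d' := by exact_mod_cast h1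
  have h2' : d' ≤ d := by exact_mod_cast h2
  omega

theorem dep_zero_iff {x : X} : Dep P L x 0 ↔ HubL (L x) := by
  constructor
  · rintro ⟨⟨s, hs, e⟩, _⟩
    have : x = s := by
      have e' : P.edist x s = 0 := by simpa using e
      exact SimpleGraph.edist_eq_zero_iff.1 e'
    rw [this]; exact hs
  · intro h
    refine ⟨⟨x, h, by simp⟩, ?_⟩
    intro s _
    simp

theorem dep_adj {x y : X} {d d' : ℕ} (h : Dep P L x d) (h' : Dep P L y d') (a : P.Adj x y) :
    d ≤ d' + 1 := by
  obtain ⟨⟨s', hs', e'⟩, _⟩ := h'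
  have h1 := h.2 s' hs'
  have h2 : P.edist x s' ≤ P.edist x y + P.edist y s' := SimpleGraph.edist_triangle
  have h3 : P.edist x y = 1 := SimpleGraph.edist_eq_one_iff_adj.2 a
  rw [h3, e'] at h2
  have h4 := h1.trans h2
  have h5 : (d : ℕ∞) ≤ ((1 + d' : ℕ) : ℕ∞) := by push_cast; exact h4
  have h6 : d ≤ 1 + d' := by exact_mod_cast h5
  omega

/-- The step towards a hub. -/
theorem dep_step {h : ℕ} (ax : PlAx h P L) {x : X} {d : ℕ} (hx : Dep P L x (d + 1)) :
    ∃ y, P.Adj x y ∧ Dep P L y d := by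
  obtain ⟨⟨s, hs, e⟩, m⟩ := hx
  have hne : P.edist x s ≠ ⊤ := by rw [e]; exact ENat.natCast_ne_top _
  have hr : P.Reachable x s := SimpleGraph.edist_ne_top_iff_reachable.1 hne
  obtain ⟨w, hw⟩ := hr.exists_walk_length_eq_edist
  cases w with
  | nil =>
    have h0 : ((d + 1 : ℕ) : ℕ∞) ≤ 0 := by simpa using m x hs
    have h1 : d + 1 ≤ 0 := by exact_mod_cast h0
    omega
  | @cons _ y _ hadj w' =>
    refine ⟨y, hadj, ?_⟩
    obtain ⟨d', _, hd', _⟩ := ax.dep y
    have h1 : P.edist y s ≤ (w'.length : ℕ∞) := SimpleGraph.edist_le w'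
    have h2 : w'.length = d := by
      rw [e] at hw
      simp only [SimpleGraph.Walk.length_cons] at hw
      have : w'.length + 1 = d + 1 := by exact_mod_cast hw
      omega
    have h3 : d' ≤ d := by
      have h4 := (hd'.2 s hs).trans h1
      rw [h2] at h4
      exact_mod_cast h4
    have h5 := dep_adj ⟨⟨s, hs, e⟩, m⟩ hd' hadj
    have h6 : d' = d := by omega
    rw [← h6]; exact hd'

theorem dep_card {h : ℕ} (ax : PlAx h P L) {x : X} {d : ℕ} (hx : Dep P L x d) (h1 : 1 ≤ d) :
    (L x).card = 3 + d % 3 := by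
  obtain ⟨d', _, hd', hc⟩ := ax.dep x
  have := dep_unique hx hd'
  subst this
  exact hc h1

theorem dep_le {h : ℕ} (ax : PlAx h P L) {x : X} {d : ℕ} (hx : Dep P L x d) : d ≤ h := by
  obtain ⟨d', h', hd', hc⟩ := ax.dep x
  have := dep_unique hx hd'
  subst this
  exact h'

/-- A lower vertex is different from the upper ones by its label. -/
theorem low_card {h : ℕ} (ax : PlAx h P L) {y : X} {d : ℕ} (hy : Dep P L y d) :
    (L y).card ≠ 3 + (d + 2) % 3 := by
  rcases Nat.eq_zero_or_pos d with h0 | h0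
  · subst h0
    have := (dep_zero_iff (P := P)).1 hy
    exact this.2.2
  · rw [dep_card ax hy h0]
    omega

/-- Uniqueness of the lower neighbour. -/
theorem low_unique {h : ℕ} (ax : PlAx h P L) {x y z : X} {d : ℕ} (hx : Dep P L x (d + 1))
    (hy : Dep P L y d) (hz : Dep P L z d) (ay : P.Adj x y) (az : P.Adj x z) : y = z :=
  (ax.pr x d hx).unique ⟨ay, low_card ax hy⟩ ⟨az, low_card ax hz⟩

/-- The other neighbours are upper ones. -/
theorem up_or_low {h : ℕ} (ax : PlAx h P L) {x y : X} {d : ℕ} (hx : Dep P L x (d + 1))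
    (ay : P.Adj x y) : Dep P L y d ∨ Dep P L y (d + 2) := by
  obtain ⟨z, az, hz⟩ := dep_step ax hx
  by_cases hyz : y = z
  · left; rw [hyz]; exact hz
  right
  have hc : (L y).card = 3 + (d + 2) % 3 := by
    by_contra hc
    exact hyz ((ax.pr x d hx).unique ⟨ay, hc⟩ ⟨az, low_card ax hz⟩)
  obtain ⟨d', _, hd', hcc⟩ := ax.dep y
  have h1 := dep_adj hx hd' ay
  have h2 := dep_adj hd' hx ay.symm
  rcases Nat.eq_zero_or_pos d' with h0 | h0
  · subst h0
    have := (dep_zero_iff (P := P)).1 hd'
    obtain ⟨a, b, c⟩ := this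
    omega
  · have h3 := hcc h0
    have h4 : d' = d + 2 := by omega
    rw [← h4]; exact hd'

/-- The child with a given label. -/
theorem child {h : ℕ} (ax : PlAx h P L) {x : X} {d : ℕ} (hx : Dep P L x d) (hd : d < h)
    {c : Finset K} (hc : c.card = 3 + (d + 1) % 3) :
    ∃ y, P.Adj x y ∧ L y = c ∧ Dep P L y (d + 1) := by
  obtain ⟨y, ⟨ay, ly⟩, _⟩ := ax.ch x d hx hd c hc
  refine ⟨y, ay, ly, ?_⟩
  obtain ⟨d', _, hd', hcc⟩ := ax.dep y
  have h1 := dep_adj hx hd' ay
  have h2 := dep_adj hd' hx ay.symm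
  rcases Nat.eq_zero_or_pos d' with h0 | h0
  · subst h0
    have := (dep_zero_iff (P := P)).1 hd'
    rw [ly] at this
    obtain ⟨a, b, c⟩ := this
    omega
  · have h3 := hcc h0
    rw [ly] at h3
    have h4 : d' = d + 1 := by omega
    rw [← h4]; exact hd'

open Classical in
/-- The vertex of the brush of `s` with list `l`. -/
noncomputable def psi (P : SimpleGraph X) (L : X → Finset K) (s : X) : List (Finset K) → X
  | [] => s
  | (c :: l) => if h : ∃ y, P.Adj (psi P L s l) y ∧ L y = c then h.choose else psi P L s l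

theorem psi_cons {h : ℕ} (ax : PlAx h P L) {s : X} (hs : HubL (L s)) :
    ∀ (l : List (Finset K)), l.length ≤ h → okl l → Dep P L (psi P L s l) l.length ∧
      ∀ c m, l = c :: m → P.Adj (psi P L s m) (psi P L s l) ∧ L (psi P L s l) = c := by
  intro l
  induction l with
  | nil =>
    intro _ _
    refine ⟨dep_zero_iff.2 hs, ?_⟩
    intro c m hcm
    simp at hcm
  | cons c m ih =>
    intro hl hok
    simp only [List.length_cons] at hl
    obtain ⟨hcc, hm⟩ := hok
    obtain ⟨hd, _⟩ := ih (by omega) hm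
    have hlt : m.length < h := by omega
    obtain ⟨y, ay, ly, dy⟩ := child ax hd hlt hcc
    have hex : ∃ y, P.Adj (psi P L s m) y ∧ L y = c := ⟨y, ay, ly⟩
    have hpsi : psi P L s (c :: m) = hex.choose := by
      simp only [psi]
      rw [dif_pos hex]
    have hsp := hex.choose_spec
    have hyy : hex.choose = y :=
      (ax.ch _ _ hd hlt c hcc).unique hsp ⟨ay, ly⟩
    rw [hpsi, hyy]
    refine ⟨by simpa using dy, ?_⟩
    intro c' m' hcm
    simp only [List.cons.injEq] at hcm
    obtain ⟨rfl, rfl⟩ := hcm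
    exact ⟨ay, ly⟩

theorem psi_inj {h : ℕ} (ax : PlAx h P L) {s s' : X} (hs : HubL (L s)) (hs' : HubL (L s')) :
    ∀ (l l' : List (Finset K)), l.length ≤ h → okl l → l'.length ≤ h → okl l' →
      psi P L s l = psi P L s' l' → s = s' ∧ l = l' := by
  intro l
  induction l with
  | nil =>
    intro l' hl hok hl' hok' heq
    have h1 := (psi_cons ax hs [] hl hok).1
    have h2 := (psi_cons ax hs' l' hl' hok').1
    rw [← heq] at h2
    have h3 := dep_unique h1 h2
    have h4 : l' = [] := by
      apply List.length_eq_zero_iff.1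
      simpa using h3.symm
    subst h4
    exact ⟨heq, rfl⟩
  | cons c m ih =>
    intro l' hl hok hl' hok' heq
    have h1 := psi_cons ax hs (c :: m) hl hok
    have h2 := psi_cons ax hs' l' hl' hok'
    have h3 := dep_unique h1.1 (by rw [heq]; exact h2.1)
    cases l' with
    | nil => simp at h3
    | cons c' m' =>
      simp only [List.length_cons, Nat.add_right_cancel_iff] at h3
      obtain ⟨a1, e1⟩ := h1.2 c m rfl
      obtain ⟨a2, e2⟩ := h2.2 c' m' rfl
      simp only [List.length_cons] at hl hl'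
      have hm := psi_cons ax hs m (by omega) hok.2
      have hm' := psi_cons ax hs' m' (by omega) hok'.2
      have hpar : psi P L s m = psi P L s' m' := by
        have hd1 : Dep P L (psi P L s (c :: m)) (m.length + 1) := by simpa using h1.1
        refine low_unique ax hd1 hm.1 ?_ a1.symm ?_
        · rw [h3]; exact hm'.1
        · rw [heq]; exact a2.symm
      obtain ⟨e3, e4⟩ := ih m' (by omega) hok.2 (by omega) hok'.2 hpar
      refine ⟨e3, ?_⟩
      rw [e4, ← e1, ← e2, heq]

theorem psi_surj {h : ℕ} (ax : PlAx h P L) : ∀ (d : ℕ) (x : X), Dep P L x d →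
    ∃ s l, HubL (L s) ∧ l.length = d ∧ okl l ∧ psi P L s l = x := by
  intro d
  induction d with
  | zero =>
    intro x hx
    exact ⟨x, [], dep_zero_iff.1 hx, rfl, trivial, rfl⟩
  | succ d ih =>
    intro x hx
    obtain ⟨y, ay, hy⟩ := dep_step ax hx
    obtain ⟨s, l, hs, hl, hok, hpsi⟩ := ih y hy
    have hle := dep_le ax hx
    have hcard := dep_card ax hx (by omega)
    have hok' : okl (L x :: l) := ⟨by rw [hl]; exact hcard, hok⟩
    refine ⟨s, L x :: l, hs, by simp [hl], hok', ?_⟩
    have h1 := psi_cons ax hs (L x :: l) (by simp [hl]; omega) hok'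
    obtain ⟨a1, e1⟩ := h1.2 (L x) l rfl
    rw [hpsi] at a1
    exact (ax.ch y d hy (by omega) (L x) hcard).unique ⟨a1, e1⟩ ⟨ay.symm, rfl⟩

/-- Adjacent vertices on different levels. -/
theorem psi_adj {h : ℕ} (ax : PlAx h P L) {s t : X} (hs : HubL (L s)) (ht : HubL (L t))
    {l m : List (Finset K)} (hl : l.length ≤ h) (hok : okl l) (hm : m.length ≤ h) (hok' : okl m)
    (a : P.Adj (psi P L s l) (psi P L t m)) :
    (l = [] ∧ m = []) ∨ (s = t ∧ ((∃ c, m = c :: l) ∨ (∃ c, l = c :: m))) := by
  have h1 := psi_cons ax hs l hl hok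
  have h2 := psi_cons ax ht m hm hok'
  -- the lower neighbour
  have key : ∀ {s t : X} (hs : HubL (L s)) (ht : HubL (L t))
      {l m : List (Finset K)} (hl : l.length ≤ h) (hok : okl l) (hm : m.length ≤ h)
      (hok' : okl m) (a : P.Adj (psi P L s l) (psi P L t m)),
      l.length = m.length + 1 → s = t ∧ ∃ c, l = c :: m := by
    intro s t hs ht l m hl hok hm hok' a hlen
    cases l with
    | nil => simp at hlen
    | cons c l' =>
      simp only [List.length_cons, Nat.add_right_cancel_iff] at hlen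
      simp only [List.length_cons] at hl
      have h1 := psi_cons ax hs (c :: l') (by simpa using hl) hok
      have h2 := psi_cons ax ht m hm hok'
      have h3 := psi_cons ax hs l' (by omega) hok.2
      obtain ⟨a1, e1⟩ := h1.2 c l' rfl
      have hd : Dep P L (psi P L s (c :: l')) (m.length + 1) := by
        have := h1.1
        simp only [List.length_cons] at this
        rw [hlen] at this
        exact this
      have h4 : psi P L s l' = psi P L t m :=
        low_unique ax hd (by rw [← hlen]; exact h3.1) h2.1 a1.symm a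
      obtain ⟨e3, e4⟩ := psi_inj ax hs ht l' m (by omega) hok.2 hm hok' h4
      exact ⟨e3, c, by rw [e4]⟩
  rcases Nat.eq_zero_or_pos l.length with h0 | h0
  · rcases Nat.eq_zero_or_pos m.length with h0' | h0'
    · left
      exact ⟨List.length_eq_zero_iff.1 h0, List.length_eq_zero_iff.1 h0'⟩
    · right
      have hd : Dep P L (psi P L t m) (m.length - 1 + 1) := by
        rw [Nat.sub_add_cancel h0']; exact h2.1
      rcases up_or_low ax hd a.symm with h3 | h3
      · have h4 := dep_unique h1.1 h3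
        obtain ⟨e1, c, e2⟩ := key ht hs hm hok' hl hok a.symm (by omega)
        exact ⟨e1.symm, Or.inl ⟨c, e2⟩⟩
      · have h4 := dep_unique h1.1 h3
        omega
  · right
    have hd : Dep P L (psi P L s l) (l.length - 1 + 1) := by
      rw [Nat.sub_add_cancel h0]; exact h1.1
    rcases up_or_low ax hd a with h3 | h3
    · have h4 := dep_unique h2.1 h3
      obtain ⟨e1, c, e2⟩ := key hs ht hl hok hm hok' a (by omega)
      exact ⟨e1, Or.inr ⟨c, e2⟩⟩
    · have h4 := dep_unique h2.1 h3
      obtain ⟨e1, c, e2⟩ := key ht hs hm hok' hl hok a.symm (by omega)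
      exact ⟨e1.symm, Or.inl ⟨c, e2⟩⟩

end DecY

theorem pDecY : StDecY := by
  intro X K _ _ h P L _ _ ax
  classical
  let V := {x // HubL (L x)}
  let f : BrV K V h → X := fun u => psi P L u.1.1.1 u.1.2
  have hf : ∀ u : BrV K V h, f u = psi P L u.1.1.1 u.1.2 := fun _ => rfl
  have hcons : ∀ u : BrV K V h, _ := fun u => psi_cons ax u.1.1.2 u.1.2 u.2.1 u.2.2
  have hinj : Function.Injective f := by
    intro u v huv
    obtain ⟨e1, e2⟩ := psi_inj ax u.1.1.2 v.1.1.2 u.1.2 v.1.2 u.2.1 u.2.2 v.2.1 v.2.2 huv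
    exact Subtype.ext (Prod.ext (Subtype.ext e1) e2)
  have hsurj : Function.Surjective f := by
    intro x
    obtain ⟨d, hd, hx, _⟩ := ax.dep x
    obtain ⟨s, l, hs, hl, hok, hpsi⟩ := psi_surj ax d x hx
    exact ⟨⟨(⟨s, hs⟩, l), by rw [hl]; exact hd, hok⟩, hpsi⟩
  have hadj : ∀ u v : BrV K V h, P.Adj (f u) (f v) ↔
      (brG K (P.comap (Subtype.val : V → X)) h).Adj u v := by
    intro u v
    constructor
    · intro a
      rcases psi_adj ax u.1.1.2 v.1.1.2 u.2.1 u.2.2 v.2.1 v.2.2 a with ⟨h1, h2⟩ | ⟨h1, h2⟩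
      · refine Or.inl ⟨h1, h2, ?_⟩
        have a' := a
        rw [hf, hf, h1, h2] at a'
        exact a'
      · exact Or.inr ⟨Subtype.ext h1, h2⟩
    · rintro (⟨h1, h2, h3⟩ | ⟨h1, ⟨c, h2⟩ | ⟨c, h2⟩⟩)
      · rw [hf, hf, h1, h2]
        exact h3
      · have := ((hcons v).2 c u.1.2 h2).1
        rw [hf, hf, h1]
        exact this
      · have := ((hcons u).2 c v.1.2 h2).1
        rw [hf, hf, ← h1]
        exact this.symm
  let e : BrV K V h ≃ X := Equiv.ofBijective f ⟨hinj, hsurj⟩
  have he : ∀ u, e u = f u := fun _ => rfl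
  let φ : brG K (P.comap (Subtype.val : V → X)) h ≃g P :=
    ⟨e, by
      intro u v
      rw [he, he]
      exact hadj u v⟩
  refine ⟨φ.symm, ?_⟩
  intro x
  have key : ∀ u : BrV K V h, brL (fun s : V => L s.1) u = L (f u) := by
    intro u
    rw [hf]
    have hc := (hcons u).2
    unfold brL
    rcases hu : u.1.2 with _ | ⟨c, m⟩
    · rfl
    · have := (hc c m hu).2
      rw [hu] at this
      exact this.symm
  have h1 := key (φ.symm x)
  rw [h1]
  have h2 : f (φ.symm x) = x := φ.apply_symm_apply x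
  rw [h2]

end Pool.Agent.Helper32.LD
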