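import Pool.Agent.Helper32.LD.StT3

/-!
# LD project, tiling part: module CD
-/

set_option autoImplicit false

namespace Pool.Agent.Helper32.LD

open Pool.Agent.Helper2.LD

theorem cd_exp (n : ℕ) (hn : 10 ≤ n) : 8 * n + 402 < 2 ^ n := by
  induction n, hn using Nat.le_induction with
  | base => norm_num
  | succ n hn ih =>
    rw [pow_succ]
    omega

theorem cd_sixteen (x : ℕ) : ∃ q, 16 ^ x = 5 * q + 1 := by
  induction x with
  | zero => exact ⟨0, rfl⟩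
  | succ x ih =>
    obtain ⟨q, hq⟩ := ih
    exact ⟨16 * q + 3, by rw [pow_succ, hq]; ring⟩

theorem cd_aux (A T M k : ℕ) (hA : A ≤ 2 ^ k) (hT : T ≤ 2 ^ (25 + k)) (hM : M ≤ 2 ^ k)
    (hk : 60 ≤ k) :
    A * (T * (T + 1) ^ 5) * M + A * T * T + M + 4 < 2 ^ (2 ^ (k - 30) - 4) := by
  obtain ⟨E, hE⟩ : ∃ E, E = 8 * k + 155 := ⟨_, rfl⟩
  have b5 : T + 1 ≤ 2 ^ (26 + k) := by
    have h1 : 2 ^ (26 + k) = 2 * 2 ^ (25 + k) := by
      rw [← pow_succ']
      congr 1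
      omega
    have h2 : 1 ≤ 2 ^ (25 + k) := Nat.one_le_two_pow
    omega
  have h1 : (T + 1) ^ 5 ≤ 2 ^ ((26 + k) * 5) := by
    rw [pow_mul]
    exact Nat.pow_le_pow_left b5 5
  have h2 : T * (T + 1) ^ 5 ≤ 2 ^ (25 + k + (26 + k) * 5) := by
    rw [pow_add]
    exact Nat.mul_le_mul hT h1
  have h3 : A * (T * (T + 1) ^ 5) ≤ 2 ^ (k + (25 + k + (26 + k) * 5)) := by
    rw [pow_add 2 k]
    exact Nat.mul_le_mul hA h2
  have c1 : A * (T * (T + 1) ^ 5) * M ≤ 2 ^ E := by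
    have e1 : E = (k + (25 + k + (26 + k) * 5)) + k := by omega
    rw [e1, pow_add 2 (k + (25 + k + (26 + k) * 5)) k]
    exact Nat.mul_le_mul h3 hM
  have h4 : A * T ≤ 2 ^ (k + (25 + k)) := by
    rw [pow_add 2 k]
    exact Nat.mul_le_mul hA hT
  have c2 : A * T * T ≤ 2 ^ E := by
    have h5 : A * T * T ≤ 2 ^ (k + (25 + k) + (25 + k)) := by
      rw [pow_add 2 (k + (25 + k)) (25 + k)]
      exact Nat.mul_le_mul h4 hT
    exact h5.trans (Nat.pow_le_pow_right (by norm_num) (by omega))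
  have c3 : M ≤ 2 ^ E := hM.trans (Nat.pow_le_pow_right (by norm_num) (by omega))
  have c8 : 2 ^ 3 ≤ 2 ^ E := Nat.pow_le_pow_right (by norm_num) (by omega)
  have c4 : 2 ^ (E + 2) = 4 * 2 ^ E := by
    rw [pow_add]
    ring
  have c5 : E + 2 ≤ 2 ^ (k - 30) - 4 := by
    have h1 := cd_exp (k - 30) (by omega)
    omega
  have c6 : 2 ^ (E + 2) ≤ 2 ^ (2 ^ (k - 30) - 4) := Nat.pow_le_pow_right (by norm_num) c5
  omega

theorem tCD : StCD := by
  intro i c
  refine ⟨i + c + 20, ?_⟩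
  intro a
  simp only
  set k := 4 * (a + (i + c + 20)) + 5 with hk
  set x := a + (i + c + 20) with hx
  have hNN : NN k = 4 * 16 ^ x := by
    unfold NN
    have e1 : k - 3 = 4 * x + 2 := by omega
    rw [e1, pow_add, pow_mul]
    norm_num
    ring
  obtain ⟨q, hq⟩ := cd_sixteen x
  have hq1 : 3 ≤ q := by
    have h1 : 16 ^ 1 ≤ 16 ^ x := Nat.pow_le_pow_right (by norm_num) (by omega)
    omega
  have hEE : EE k = 20 * q := by
    unfold EE
    rw [hNN, hq]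
    omega
  have hal : 4 * EE k / 5 = 16 * q := by
    rw [hEE]
    omega
  rw [hal]
  refine ⟨by omega, by omega, by omega, by rw [hEE]; ring, by rw [hEE, hNN, hq]; ring, ?_⟩
  have hk60 : 60 ≤ k := by omega
  have hNk : NN k = 2 ^ (k - 3) := rfl
  have h8 : 2 ^ k = 8 * 2 ^ (k - 3) := by
    have e1 : k = (k - 3) + 3 := by omega
    conv_lhs => rw [e1]
    rw [pow_add]
    ring
  have hp1 : 1 ≤ 2 ^ (k - 3) := Nat.one_le_two_pow
  have hqN : 20 * q + 4 = 2 ^ (k - 3) := by rw [← hNk, hNN, hq]; ring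
  -- bounds
  have b1 : 1 + 2 * (16 * q - 1) ≤ 2 ^ k := by omega
  have b2 : 2 * NN k + 2 ≤ 2 ^ k := by rw [hNk]; omega
  have b3 : (a + c + 2) * i ≤ 2 ^ k := by
    have h1 : (a + c + 2) * i ≤ x * x := Nat.mul_le_mul (by omega) (by omega)
    have h2 : x < 2 ^ x := Nat.lt_two_pow_self
    have h3 : x * x ≤ 2 ^ x * 2 ^ x := Nat.mul_le_mul h2.le h2.le
    have h4 : 2 ^ x * 2 ^ x ≤ 2 ^ k := by
      rw [← pow_add]
      exact Nat.pow_le_pow_right (by norm_num) (by omega)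
    omega
  have b4 : 2 ^ 25 * ((a + c + 2) * i) ≤ 2 ^ (25 + k) := by
    rw [pow_add]
    exact Nat.mul_le_mul_left _ b3
  have h9 := cd_aux _ _ _ k b1 b4 b2 hk60
  unfold SS
  refine lt_of_le_of_lt ?_ h9
  refine Nat.add_le_add_right ?_ 4
  exact Nat.add_le_add_left (by omega) _

end Pool.Agent.Helper32.LD
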