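import Pool.Agent.Helper32.LD.StT3

/-!
# LD project, tiling part: module F2
-/

set_option autoImplicit false

namespace Pool.Agent.Helper32.LD

open Pool.Agent.Helper2.LD

theorem tF2 (ha : StF2a) (htt : StF2t) (hs : StF2s) : StF2 := by
  intro Sg S R T _ _ M w0 m t Rr Dd β hm ht hH hS
  classical
  obtain ⟨g, k, hk, hg⟩ := ha m t Rr Dd β (infW M w0 m t) hm ht hS
    ⟨fun I => I.2.1 = true, fun n k _ _ => by
      show (decide (n = t) = true) ↔ n = t
      exact decide_eq_true_iff⟩
  obtain ⟨ρ0, hρ0, htop⟩ := htt M w0 m t Rr Dd β hm ht hS g k hk hg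
  have key : ∀ n ≤ t, ∃ (x : ℕ → T) (ρ : ℕ → T), RowOK M w0 m t Rr β n ρ ∧ x 0 = ρ0 0 ∧
      x n = ρ 0 ∧ ∀ i < n, Dd (x i) (x (i + 1)) := by
    intro n
    induction n with
    | zero =>
      intro _
      exact ⟨fun _ => ρ0 0, ρ0, hρ0, rfl, rfl, fun i hi => absurd hi (Nat.not_lt_zero i)⟩
    | succ n ih =>
      intro hn
      obtain ⟨x, ρ, h1, h2, h3, h4⟩ := ih (by omega)
      obtain ⟨ρ', h5, h6⟩ := hs M w0 m t Rr Dd β hm ht hH hS n (by omega) ρ h1
      refine ⟨fun i => if i ≤ n then x i else ρ' 0, ρ', h5, ?_, ?_, ?_⟩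
      · simp [h2]
      · have : ¬ n + 1 ≤ n := by omega
        simp only [if_neg this]
      · intro i hi
        have e1 : i ≤ n := by omega
        simp only [if_pos e1]
        rcases Nat.lt_or_ge i n with h0 | h0
        · have e2 : i + 1 ≤ n := by omega
          rw [if_pos e2]
          exact h4 i h0
        · have e2 : ¬ i + 1 ≤ n := by omega
          rw [if_neg e2]
          have e3 : i = n := by omega
          rw [e3, h3]
          exact h6
  obtain ⟨x, ρ, _, hx0, _, hx⟩ := key t le_rfl
  have hinj : ∀ i j, i < j → j ≤ t → x i ≠ x j := by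
    intro i
    induction i with
    | zero =>
      intro j hj hjt hxx
      have h1 := hx (j - 1) (by omega)
      have e1 : j - 1 + 1 = j := by omega
      rw [e1, ← hxx, hx0] at h1
      exact htop _ h1
    | succ i ih =>
      intro j hj hjt hxx
      have h1 := hx (j - 1) (by omega)
      have e1 : j - 1 + 1 = j := by omega
      rw [e1, ← hxx] at h1
      have h2 := hS.id _ _ _ (hx i (by omega)) h1
      exact ih (j - 1) (by omega) (by omega) h2
  have hf : Function.Injective (fun i : Fin (t + 1) => x i.val) := by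
    intro a b hab
    rcases Nat.lt_trichotomy a.val b.val with h | h | h
    · exact absurd hab (hinj _ _ h (by omega))
    · exact Fin.ext h
    · exact absurd hab.symm (hinj _ _ h (by omega))
  have h1 := Nat.card_le_card_of_injective _ hf
  rw [Nat.card_eq_fintype_card, Fintype.card_fin] at h1
  omega

end Pool.Agent.Helper32.LD
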