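import Pool.Agent.Helper32.LD.StT3

/-!
# LD project, tiling part: module F2a
-/

set_option autoImplicit false

namespace Pool.Agent.Helper32.LD

open Pool.Agent.Helper2.LD

theorem tF2a : StF2a := by
  intro T I _ _ m t Rr Dd β inf hm ht hS hPP
  obtain ⟨P, hP⟩ := hPP
  classical
  by_contra hcon
  choose nm km hmod using hS.mod
  have hpos : ∀ g, 0 < nm g := by
    intro g
    by_contra h0
    have h1 : nm g = 0 := by omega
    refine hcon ⟨g, km g, ?_, ?_⟩
    · have := (hmod g).2.1
      rw [h1] at this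
      simpa using this
    · have := (hmod g).2.2.1
      rw [h1] at this
      exact this
  -- parity
  have hpar : ∀ g n k, β g = bl inf n k → km g % 2 = k % 2 := by
    intro g n k hg
    have h1 := (hmod g).2.2.1
    rw [hg] at h1
    have h2 := congrArg (fun x => x.2.1.val) h1
    have h3 : k % 2 ^ 20 = km g % 2 ^ 20 := h2
    omega
  -- right neighbours
  have hright : ∀ g h, Rr g h → km g < m * 2 ^ nm g ∧ β h = bl inf (nm g) (km g + 1) := by
    intro g h hgh
    obtain ⟨h1, h2, h3, h4, h5, h6, h7, h8, h9, h10, h11, h12⟩ := hmod g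
    have hlt : km g < m * 2 ^ nm g := by
      rcases Nat.lt_or_ge (km g) (m * 2 ^ nm g) with h0 | h0
      · exact h0
      · exact absurd hgh (h9 (le_antisymm h2 h0) h)
    obtain ⟨h', hr, hb⟩ := h4 hlt
    rw [hS.fr g h h' hgh hr]
    exact ⟨hlt, hb⟩
  have hDt : ∀ g h, Dd g h → nm g < t := by
    intro g h hgh
    obtain ⟨h1, h2, h3, h4, h5, h6, h7, h8, h9, h10, h11, h12⟩ := hmod g
    rcases Nat.lt_or_ge (nm g) t with h0 | h0
    · exact h0
    · exact absurd hgh (h11 (le_antisymm h1 h0) h)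
  have hQ : ∀ g n k, n ≤ t → k ≤ m * 2 ^ n → β g = bl inf n k → (nm g = t ↔ n = t) := by
    intro g n k hn hk hg
    have h1 := (hmod g).2.2.1
    rw [hg] at h1
    have h2 : inf n k = inf (nm g) (km g) := congrArg (fun x => x.2.2) h1
    rw [← hP n k hn hk, ← hP (nm g) (km g) (hmod g).1 (hmod g).2.1, h2]
  have hrow : ∀ a b, Relation.EqvGen Rr a b →
      (nm a < t ↔ nm b < t) ∧ ∀ da db, Dd a da → Dd b db → Relation.EqvGen Rr da db := by
    intro a b hab
    induction hab with
    | rel a b hab =>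
      obtain ⟨h1, h2⟩ := hright a b hab
      have h3 := hQ b (nm a) (km a + 1) (hmod a).1 h1 h2
      refine ⟨?_, ?_⟩
      · have h4 := (hmod a).1
        have h5 := (hmod b).1
        constructor
        · intro h6
          rcases Nat.lt_or_ge (nm b) t with h0 | h0
          · exact h0
          · have : nm b = t := le_antisymm h5 h0
            have := h3.1 this
            omega
        · intro h6
          rcases Nat.lt_or_ge (nm a) t with h0 | h0
          · exact h0
          · have : nm a = t := le_antisymm h4 h0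
            have := h3.2 this
            omega
      · intro da db hda hdb
        obtain ⟨g1, g2, g3, g4, r1, d1, r2, r3, d2, _⟩ :=
          (hmod a).2.2.2.2.2.2.2.1 (hDt a da hda) h1
        have e1 : g1 = b := hS.fr _ _ _ r1 hab
        rw [e1] at d1
        have e2 : g2 = db := hS.fd _ _ _ d1 hdb
        have e3 : g4 = da := hS.fd _ _ _ d2 hda
        rw [e2] at r2
        rw [e3] at r3
        exact (Relation.EqvGen.rel _ _ r3).trans _ _ _ (Relation.EqvGen.rel _ _ r2)
    | refl a =>
      refine ⟨Iff.rfl, ?_⟩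
      intro da db hda hdb
      rw [hS.fd _ _ _ hda hdb]
      exact Relation.EqvGen.refl _
    | symm a b _ ih =>
      refine ⟨ih.1.symm, ?_⟩
      intro da db hda hdb
      exact (ih.2 db da hdb hda).symm
    | trans a b c _ _ ih1 ih2 =>
      refine ⟨ih1.1.trans ih2.1, ?_⟩
      intro da dc hda hdc
      have hb : nm b < t := ih1.1.1 (hDt a da hda)
      obtain ⟨db, hdb, _⟩ := (hmod b).2.2.2.2.2.1 hb
      exact (ih1.2 da db hda hdb).trans _ _ _ (ih2.2 db dc hdb hdc)
  let Row : T → Set T := fun v => {z | Relation.EqvGen Rr v z}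
  obtain ⟨v, hv⟩ := Finite.exists_min (fun v => (Row v).ncard)
  -- an even vertex in the row of v
  obtain ⟨x, hvx, hx⟩ : ∃ x, Relation.EqvGen Rr v x ∧ km x % 2 = 0 := by
    rcases Nat.mod_two_eq_zero_or_one (km v) with h0 | h0
    · exact ⟨v, Relation.EqvGen.refl _, h0⟩
    · obtain ⟨h, hr, hb⟩ := (hmod v).2.2.2.2.1 (by omega)
      refine ⟨h, (Relation.EqvGen.rel _ _ hr).symm, ?_⟩
      rw [hpar h _ _ hb]
      omega
  have hRow : Row x = Row v := by
    ext z
    constructor
    · intro hz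
      exact hvx.trans _ _ _ hz
    · intro hz
      exact (hvx.symm).trans _ _ _ hz
  obtain ⟨y, hyx, _⟩ := (hmod x).2.2.2.2.2.2.1 (hpos x) hx
  have hyt : nm y < t := hDt y x hyx
  have hzt : ∀ z ∈ Row y, nm z < t := fun z hz => (hrow y z hz).1.1 hyt
  have hDex : ∀ z, z ∈ Row y → ∃ d, Dd z d ∧ β d = bl inf (nm z + 1) (2 * km z) := by
    intro z hz
    exact (hmod z).2.2.2.2.2.1 (hzt z hz)
  have hTne : Nonempty T := ⟨x⟩
  choose! D hD using hDex
  have hmaps : ∀ z ∈ Row y, D z ∈ Row x ∩ {z | km z % 2 = 0} := by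
    intro z hz
    refine ⟨(hrow y z hz).2 x (D z) hyx (hD z hz).1, ?_⟩
    show km (D z) % 2 = 0
    rw [hpar _ _ _ (hD z hz).2]
    omega
  have hinj : Set.InjOn D (Row y) := by
    intro z hz z' hz' hzz
    have h1 := (hD z hz).1
    rw [hzz] at h1
    exact hS.id _ _ _ h1 (hD z' hz').1
  have h1 : (Row y).ncard ≤ (Row x ∩ {z | km z % 2 = 0}).ncard :=
    Set.ncard_le_ncard_of_injOn D hmaps hinj (Set.toFinite _)
  have h2 : (Row x ∩ {z | km z % 2 = 0}).ncard < (Row x).ncard := by
    apply Set.ncard_lt_ncard _ (Set.toFinite _)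
    refine ⟨Set.inter_subset_left, ?_⟩
    intro hsub
    have hodd : ∃ z ∈ Row x, km z % 2 = 1 := by
      rcases Nat.lt_or_ge (km x) (m * 2 ^ nm x) with h0 | h0
      · obtain ⟨h, hr, hb⟩ := (hmod x).2.2.2.1 h0
        refine ⟨h, Relation.EqvGen.rel _ _ hr, ?_⟩
        rw [hpar h _ _ hb]
        omega
      · have h3 : 0 < m * 2 ^ nm x := Nat.mul_pos hm (pow_pos (by norm_num) _)
        obtain ⟨h, hr, hb⟩ := (hmod x).2.2.2.2.1 (by omega)
        refine ⟨h, (Relation.EqvGen.rel _ _ hr).symm, ?_⟩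
        rw [hpar h _ _ hb]
        omega
    obtain ⟨z, hz, hz1⟩ := hodd
    have h3 : km z % 2 = 0 := (hsub hz).2
    omega
  have h3 : (Row v).ncard ≤ (Row y).ncard := hv y
  have h4 : (Row x).ncard = (Row v).ncard := by rw [hRow]
  omega

end Pool.Agent.Helper32.LD
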