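import Pool.Agent.Helper32.LD.StT3

/-!
# LD project, tiling part: module F2s
-/

set_option autoImplicit false

namespace Pool.Agent.Helper32.LD

open Pool.Agent.Helper2.LD

theorem sr_last {Sg S R : Type} (M : WM Sg S R) (w : ℕ → Sg) (len : ℕ) :
    M.sr w len len = M.r0 := by
  unfold WM.sr
  rw [Nat.sub_self]
  rfl

theorem sr_step {Sg S R : Type} (M : WM Sg S R) (w : ℕ → Sg) (len k : ℕ) (h : k < len) :
    M.sr w len k = M.dr (M.sr w len (k + 1)) (w k) := by
  unfold WM.sr
  have e1 : len - k = (len - (k + 1)) + 1 := by omega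
  rw [e1]
  show M.dr (M.srr w len (len - (k + 1))) (w (len - 1 - (len - (k + 1)))) = _
  have e2 : len - 1 - (len - (k + 1)) = k := by omega
  rw [e2]

theorem row_even {Sg S R : Type} (M : WM Sg S R) (w0 : ℕ → Sg) (m n k : ℕ) :
    M.row w0 m (n + 1) (2 * k) = M.c1 (M.row w0 m n k) (M.sl (M.row w0 m n) k)
      (M.sr (M.row w0 m n) (m * 2 ^ n) (k + 1)) := by
  show M.next (M.row w0 m n) (m * 2 ^ n) (2 * k) = _
  unfold WM.next
  have e1 : 2 * k % 2 = 0 := by omega
  have e2 : 2 * k / 2 = k := by omega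
  rw [if_pos e1, e2]

theorem row_odd {Sg S R : Type} (M : WM Sg S R) (w0 : ℕ → Sg) (m n k : ℕ) :
    M.row w0 m (n + 1) (2 * k + 1) = M.c2 (M.row w0 m n k) (M.sl (M.row w0 m n) k)
      (M.sr (M.row w0 m n) (m * 2 ^ n) (k + 1)) := by
  show M.next (M.row w0 m n) (m * 2 ^ n) (2 * k + 1) = _
  unfold WM.next
  have e1 : ¬ (2 * k + 1) % 2 = 0 := by omega
  have e2 : (2 * k + 1) / 2 = k := by omega
  rw [if_neg e1, e2]

theorem tF2s : StF2s := by
  intro Sg S R T M w0 m t Rr Dd β hm ht hH hS n hn ρ hρ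
  classical
  have hne : Nonempty T := ⟨ρ 0⟩
  set inf := infW M w0 m t with hinf
  -- components of labels
  have csym : ∀ n k, (bl inf n k).2.2.2.2.2.1 =
      if k < m * 2 ^ n then some (M.row w0 m n k) else none := fun _ _ => rfl
  have cleft : ∀ n k, (bl inf n k).2.2.2.2.1 = decide (k = 0) := fun _ _ => rfl
  have cbot : ∀ n k, (bl inf n k).2.2.2.1 = decide (n = t) := fun _ _ => rfl
  have csl : ∀ n k, (bl inf n k).2.2.2.2.2.2.1 = M.sl (M.row w0 m n) k := fun _ _ => rfl
  have csr : ∀ n k, (bl inf n k).2.2.2.2.2.2.2 = M.sr (M.row w0 m n) (m * 2 ^ n) k :=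
    fun _ _ => rfl
  choose nm km hmod using hS.mod
  set len := m * 2 ^ n with hlen
  have hlen2 : m * 2 ^ (n + 1) = 2 * len := by rw [hlen, pow_succ]; ring
  -- right neighbours
  have hright : ∀ g h, Rr g h → km g < m * 2 ^ nm g ∧ β h = bl inf (nm g) (km g + 1) := by
    intro g h hgh
    obtain ⟨h1, h2, h3, h4, h5, h6, h7, h8, h9, h10, h11, h12⟩ := hmod g
    have hlt : km g < m * 2 ^ nm g := by
      rcases Nat.lt_or_ge (km g) (m * 2 ^ nm g) with h0 | h0
      · exact h0
      · exact absurd hgh (h9 (le_antisymm h2 h0) h)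
    obtain ⟨h', hr, hb⟩ := h4 hlt
    rw [hS.fr g h h' hgh hr]
    exact ⟨hlt, hb⟩
  -- facts on the models of the row
  have fN : ∀ k ≤ len, nm (ρ k) < t := by
    intro k hk
    obtain ⟨h1, h2, h3, _⟩ := hmod (ρ k)
    have h4 := hρ.bot k hk
    rw [h3, cbot] at h4
    have h5 : ¬ nm (ρ k) = t := by
      intro h6
      rw [decide_eq_true h6] at h4
      have h7 : decide (n = t) = false := decide_eq_false (by omega)
      rw [h7] at h4
      exact Bool.noConfusion h4
    omega
  have fK : ∀ k < len, km (ρ k) < m * 2 ^ nm (ρ k) := fun k hk => (hright _ _ (hρ.rr k hk)).1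
  have fS : ∀ k < len, M.row w0 m (nm (ρ k)) (km (ρ k)) = M.row w0 m n k := by
    intro k hk
    obtain ⟨h1, h2, h3, _⟩ := hmod (ρ k)
    have h4 := hρ.sym k hk
    rw [h3, csym, if_pos (fK k hk)] at h4
    exact Option.some.inj h4
  have fR : km (ρ len) = m * 2 ^ nm (ρ len) := by
    obtain ⟨h1, h2, h3, _⟩ := hmod (ρ len)
    have h4 := hρ.right
    rw [h3, csym] at h4
    by_contra h5
    rw [if_pos (by omega)] at h4
    simp at h4
  have fL : km (ρ 0) = 0 := by
    obtain ⟨h1, h2, h3, _⟩ := hmod (ρ 0)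
    have h4 := hρ.left
    rw [h3, cleft] at h4
    exact of_decide_eq_true h4
  have fnext : ∀ k < len, bl inf (nm (ρ (k + 1))) (km (ρ (k + 1))) =
      bl inf (nm (ρ k)) (km (ρ k) + 1) := by
    intro k hk
    obtain ⟨_, _, h3, _⟩ := hmod (ρ (k + 1))
    rw [← h3]
    exact (hright _ _ (hρ.rr k hk)).2
  -- states
  have fsl : ∀ k ≤ len, M.sl (M.row w0 m (nm (ρ k))) (km (ρ k)) = M.sl (M.row w0 m n) k := by
    intro k
    induction k with
    | zero =>
      intro _
      rw [fL]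
      rfl
    | succ k ih =>
      intro hk
      have h1 := congrArg (fun x => x.2.2.2.2.2.2.1) (fnext k (by omega))
      simp only [csl] at h1
      rw [h1]
      show M.dl (M.sl (M.row w0 m (nm (ρ k))) (km (ρ k))) (M.row w0 m (nm (ρ k)) (km (ρ k))) =
        M.dl (M.sl (M.row w0 m n) k) (M.row w0 m n k)
      rw [ih (by omega), fS k (by omega)]
  have fsr' : ∀ j ≤ len, M.sr (M.row w0 m (nm (ρ (len - j)))) (m * 2 ^ nm (ρ (len - j)))
      (km (ρ (len - j))) = M.sr (M.row w0 m n) len (len - j) := by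
    intro j
    induction j with
    | zero =>
      intro _
      rw [Nat.sub_zero, fR, sr_last, sr_last]
    | succ j ih =>
      intro hj
      have e1 : len - j = len - (j + 1) + 1 := by omega
      have h1 := ih (by omega)
      rw [e1] at h1
      have h2 := congrArg (fun x => x.2.2.2.2.2.2.2) (fnext (len - (j + 1)) (by omega))
      simp only [csr] at h2
      rw [h2] at h1
      rw [sr_step _ _ _ _ (fK _ (by omega)), h1, fS _ (by omega),
        sr_step _ _ len (len - (j + 1)) (by omega)]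
  have fsr : ∀ k ≤ len, M.sr (M.row w0 m (nm (ρ k))) (m * 2 ^ nm (ρ k)) (km (ρ k)) =
      M.sr (M.row w0 m n) len k := by
    intro k hk
    have := fsr' (len - k) (by omega)
    have e : len - (len - k) = k := by omega
    rw [e] at this
    exact this
  have fsr1 : ∀ k < len, M.sr (M.row w0 m (nm (ρ k))) (m * 2 ^ nm (ρ k)) (km (ρ k) + 1) =
      M.sr (M.row w0 m n) len (k + 1) := by
    intro k hk
    have h2 := congrArg (fun x => x.2.2.2.2.2.2.2) (fnext k hk)
    simp only [csr] at h2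
    rw [← h2]
    exact fsr (k + 1) (by omega)
  -- the vertices below
  have hD0 : ∀ k, k ≤ len → ∃ d, Dd (ρ k) d ∧ β d = bl inf (nm (ρ k) + 1) (2 * km (ρ k)) := by
    intro k hk
    obtain ⟨h1, h2, h3, h4, h5, h6, _⟩ := hmod (ρ k)
    exact h6 (fN k hk)
  choose! D hD using hD0
  have hE0 : ∀ k, k < len → ∃ d, Rr (D k) d ∧ Rr d (D (k + 1)) ∧
      β d = bl inf (nm (ρ k) + 1) (2 * km (ρ k) + 1) := by
    intro k hk
    obtain ⟨h1, h2, h3, h4, h5, h6, h7, h8, _⟩ := hmod (ρ k)
    obtain ⟨g1, g2, g3, g4, r1, d1, r2, r3, d2, b1, b2, b3, b4⟩ := h8 (fN k hk.le) (fK k hk)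
    have e1 : g1 = ρ (k + 1) := hS.fr _ _ _ r1 (hρ.rr k hk)
    rw [e1] at d1
    have e2 : g2 = D (k + 1) := hS.fd _ _ _ d1 (hD (k + 1) hk).1
    have e3 : g4 = D k := hS.fd _ _ _ d2 (hD k hk.le).1
    rw [e2] at r2
    rw [e3] at r3
    exact ⟨g3, r3, r2, b3⟩
  choose! E hE using hE0
  let ρ' : ℕ → T := fun j => if j % 2 = 0 then D (j / 2) else E (j / 2)
  have hev : ∀ k, ρ' (2 * k) = D k := by
    intro k
    show (if 2 * k % 2 = 0 then D (2 * k / 2) else E (2 * k / 2)) = D k
    have e1 : 2 * k % 2 = 0 := by omega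
    have e2 : 2 * k / 2 = k := by omega
    rw [if_pos e1, e2]
  have hod : ∀ k, ρ' (2 * k + 1) = E k := by
    intro k
    show (if (2 * k + 1) % 2 = 0 then D ((2 * k + 1) / 2) else E ((2 * k + 1) / 2)) = E k
    have e1 : ¬ (2 * k + 1) % 2 = 0 := by omega
    have e2 : (2 * k + 1) / 2 = k := by omega
    rw [if_neg e1, e2]
  have hrr : ∀ j < 2 * len, Rr (ρ' j) (ρ' (j + 1)) := by
    intro j hj
    rcases Nat.even_or_odd' j with ⟨k, hk | hk⟩
    · subst hk
      rw [hev, hod]
      exact (hE k (by omega)).1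
    · subst hk
      have e : 2 * k + 1 + 1 = 2 * (k + 1) := by ring
      rw [hod, e, hev]
      exact (hE k (by omega)).2.1
  have hsym : ∀ j < 2 * len, (β (ρ' j)).2.2.2.2.2.1 = some (M.row w0 m (n + 1) j) := by
    intro j hj
    rcases Nat.even_or_odd' j with ⟨k, hk | hk⟩
    · subst hk
      have hk' : k < len := by omega
      rw [hev, (hD k hk'.le).2, csym, if_pos (pow_dbl0 _ _ _ (fK k hk')), row_even, row_even,
        fS k hk', fsl k hk'.le, fsr1 k hk']
    · subst hk
      have hk' : k < len := by omega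
      rw [hod, (hE k hk').2.2, csym, if_pos (pow_dbl1 _ _ _ (fK k hk')), row_odd, row_odd,
        fS k hk', fsl k hk'.le, fsr1 k hk']
  refine ⟨ρ', ⟨?_, ?_, ?_, ?_, ?_⟩, ?_⟩
  · rw [hlen2]; exact hrr
  · rw [hlen2]; exact hsym
  · rw [hlen2, hev, (hD len le_rfl).2, csym, fR, if_neg]
    have e : m * 2 ^ (nm (ρ len) + 1) = 2 * (m * 2 ^ nm (ρ len)) := by rw [pow_succ]; ring
    omega
  · have e0 : ρ' 0 = D 0 := hev 0
    rw [e0, (hD 0 (Nat.zero_le _)).2, cleft, fL]
    rfl
  · rw [hlen2]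
    have hconst : ∀ j ≤ 2 * len, (β (ρ' j)).2.2.2.1 = (β (ρ' 0)).2.2.2.1 := by
      intro j
      induction j with
      | zero => intro _; rfl
      | succ j ih =>
        intro hj
        rw [← ih (by omega), (hright _ _ (hrr j (by omega))).2, (hmod (ρ' j)).2.2.1, cbot, cbot]
    obtain ⟨b, ⟨j0, hj0, hb0⟩, _, hbt⟩ := hH (n + 1) (by omega)
    rw [hlen2] at hj0
    have key : (β (ρ' j0)).2.2.2.1 = decide (n + 1 = t) := by
      have h1 := hsym j0 hj0
      obtain ⟨g1, g2, g3, _⟩ := hmod (ρ' j0)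
      rw [g3, csym] at h1
      have hlt : km (ρ' j0) < m * 2 ^ nm (ρ' j0) := by
        by_contra h2
        rw [if_neg h2] at h1
        simp at h1
      rw [if_pos hlt] at h1
      have h2 : M.row w0 m (nm (ρ' j0)) (km (ρ' j0)) = M.row w0 m (n + 1) j0 :=
        Option.some.inj h1
      obtain ⟨b', _, hall, hbt'⟩ := hH (nm (ρ' j0)) g1
      have h3 := hall _ hlt
      rw [h2, hb0] at h3
      rcases h3 with h3 | h3
      · simp at h3
      · have h4 : b = b' := Option.some.inj h3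
        rw [g3, cbot]
        subst h4
        have h5 : nm (ρ' j0) = t ↔ n + 1 = t := hbt'.symm.trans hbt
        exact decide_eq_decide.2 h5
    intro j hj
    rw [hconst j hj, ← hconst j0 (by omega), key]
  · have e0 : ρ' 0 = D 0 := hev 0
    rw [e0]
    exact (hD 0 (Nat.zero_le _)).1

end Pool.Agent.Helper32.LD
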