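import Pool.Agent.Helper32.LD.StT3

/-!
# LD project, tiling part: module F2t
-/

set_option autoImplicit false

namespace Pool.Agent.Helper32.LD

open Pool.Agent.Helper2.LD

theorem tF2t : StF2t := by
  intro Sg S R T M w0 m t Rr Dd β hm ht hS g k hk hg
  classical
  set inf := infW M w0 m t with hinf
  have hne : Nonempty T := ⟨g⟩
  have ctop : ∀ n k, (bl inf n k).2.2.1 = if n = 0 then some (Fin.ofNat (m + 1) k) else none :=
    fun _ _ => rfl
  -- models of vertices with a top label
  have hmod : ∀ g k, k ≤ m → β g = bl inf 0 k →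
      (k < m → ∃ h, Rr g h ∧ β h = bl inf 0 (k + 1)) ∧
      (0 < k → ∃ h, Rr h g ∧ β h = bl inf 0 (k - 1)) ∧ (∀ h, ¬ Dd h g) := by
    intro g k hk hg
    obtain ⟨n', k', h1, h2, h3, h4, h5, h6, h7, h8, h9, h10, h11, h12⟩ := hS.mod g
    have h13 := congrArg (fun x => x.2.2.1) (hg.symm.trans h3)
    simp only [ctop] at h13
    have hn : n' = 0 := by
      by_contra h0
      rw [if_neg h0] at h13
      simp at h13
    subst hn
    simp only [if_true] at h13
    have h14 : Fin.ofNat (m + 1) k = Fin.ofNat (m + 1) k' := Option.some.inj h13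
    have h15 := congrArg Fin.val h14
    simp only [Fin.val_ofNat] at h15
    have e0 : m * 2 ^ 0 = m := by simp
    rw [e0] at h2 h4
    rw [Nat.mod_eq_of_lt (by omega), Nat.mod_eq_of_lt (by omega)] at h15
    subst h15
    exact ⟨h4, h5, h12 rfl⟩
  -- to the left
  have hleft : ∀ k ≤ m, ∀ g, β g = bl inf 0 k → ∃ g0, β g0 = bl inf 0 0 := by
    intro k
    induction k with
    | zero => intro _ g hg; exact ⟨g, hg⟩
    | succ k ih =>
      intro hk g hg
      obtain ⟨h, _, hh⟩ := (hmod g (k + 1) hk hg).2.1 (by omega)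
      exact ih (by omega) h hh
  obtain ⟨g0, hg0⟩ := hleft k hk g hg
  -- to the right
  have hstep : ∀ g, ∃ h, ∀ k, k < m → β g = bl inf 0 k → Rr g h ∧ β h = bl inf 0 (k + 1) := by
    intro g
    by_cases hex : ∃ k, k < m ∧ β g = bl inf 0 k
    · obtain ⟨k, hk, hgk⟩ := hex
      obtain ⟨h, h1, h2⟩ := (hmod g k hk.le hgk).1 hk
      refine ⟨h, ?_⟩
      intro k' hk' hgk'
      have h13 := congrArg (fun x => x.2.2.1) (hgk.symm.trans hgk')
      simp only [ctop, if_true] at h13
      have h15 := congrArg Fin.val (Option.some.inj h13)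
      simp only [Fin.val_ofNat] at h15
      rw [Nat.mod_eq_of_lt (by omega), Nat.mod_eq_of_lt (by omega)] at h15
      subst h15
      exact ⟨h1, h2⟩
    · refine ⟨g, ?_⟩
      intro k hk hgk
      exact absurd ⟨k, hk, hgk⟩ hex
  choose nx hnx using hstep
  let ρ : ℕ → T := fun k => nx^[k] g0
  have hρs : ∀ k, ρ (k + 1) = nx (ρ k) := fun k => Function.iterate_succ_apply' nx k g0
  have hρ : ∀ k ≤ m, β (ρ k) = bl inf 0 k := by
    intro k
    induction k with
    | zero => intro _; exact hg0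
    | succ k ih =>
      intro hk
      rw [hρs]
      exact (hnx (ρ k) k (by omega) (ih (by omega))).2
  have e0 : m * 2 ^ 0 = m := by simp
  refine ⟨ρ, ⟨?_, ?_, ?_, ?_, ?_⟩, (hmod (ρ 0) 0 (Nat.zero_le _) (hρ 0 (Nat.zero_le _))).2.2⟩
  · rw [e0]
    intro k hk
    rw [hρs]
    exact (hnx (ρ k) k hk (hρ k hk.le)).1
  · rw [e0]
    intro k hk
    rw [hρ k hk.le]
    show (if k < m * 2 ^ 0 then some (M.row w0 m 0 k) else none) = some (M.row w0 m 0 k)
    rw [e0, if_pos hk]
  · rw [e0, hρ m le_rfl]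
    show (if m < m * 2 ^ 0 then some (M.row w0 m 0 m) else none) = none
    rw [e0, if_neg (lt_irrefl m)]
  · rw [hρ 0 (Nat.zero_le _)]
    rfl
  · rw [e0]
    intro k hk
    rw [hρ k hk]
    rfl

end Pool.Agent.Helper32.LD
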