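import Pool.Agent.Helper32.LD.StT3

/-!
# LD project, tiling part: module FA
-/

set_option autoImplicit false

namespace Pool.Agent.Helper32.LD

open Pool.Agent.Helper2.LD

theorem edist_two {V : Type} (G : SimpleGraph V) (N : ℕ) (u w w' : V) (h : G.Adj u w)
    (h' : G.Adj u w') : G.edist w w' ≤ ((4 * N + 2 : ℕ) : ℕ∞) := by
  have h1 : G.edist w u = 1 := SimpleGraph.edist_eq_one_iff_adj.2 h.symm
  have h2 : G.edist u w' = 1 := SimpleGraph.edist_eq_one_iff_adj.2 h'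
  have h3 : G.edist w w' ≤ G.edist w u + G.edist u w' := SimpleGraph.edist_triangle
  rw [h1, h2] at h3
  refine h3.trans ?_
  have h4 : (1 : ℕ∞) + 1 = ((2 : ℕ) : ℕ∞) := by norm_num
  rw [h4]
  exact_mod_cast (by omega : 2 ≤ 4 * N + 2)

theorem tFA : StFA where
  uniq := by
    intro V Q Λ B FB N e c hA W M L hL g g' g'' h1 h2 hb
    obtain ⟨u, hu, hex, hall, _⟩ := hL g
    obtain ⟨w, hw, e1⟩ := hall g' h1
    obtain ⟨w', hw', e2⟩ := hall g'' h2
    have hww : w = w' := by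
      refine hA.k5 w w' (edist_two c.G N u w w' hw hw') ?_
      rw [← e1, ← e2, hb]
    subst hww
    exact (hex w hw).unique ⟨h1, e1⟩ ⟨h2, e2⟩
  mod := by
    intro V Q Λ B FB N e c hA W M L hL g u hgu
    obtain ⟨u0, hu0, hex, hall, _⟩ := hL g
    have hlu : c.lb u0 = c.lb u := by rw [← hu0, hgu]
    constructor
    · intro g' h1
      obtain ⟨w, hw, e1⟩ := hall g' h1
      obtain ⟨w', hw', e2⟩ := hA.k6 u0 u w hlu hw
      exact ⟨w', hw', by rw [e1, e2]⟩
    · intro w hw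
      obtain ⟨w', hw', e2⟩ := hA.k6 u u0 w hlu.symm hw
      obtain ⟨g', ⟨h1, h2⟩, _⟩ := hex w' hw'
      exact ⟨g', h1, by rw [h2, e2]⟩

end Pool.Agent.Helper32.LD
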