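import Pool.Agent.Helper32.LD.AsmMac
import Pool.Agent.Helper32.LD.T_F2s
import Pool.Agent.Helper32.LD.T_F2
import Pool.Agent.Helper32.LD.T_F2a
import Pool.Agent.Helper32.LD.T_F2t
import Pool.Agent.Helper32.LD.T_FA
import Pool.Agent.Helper32.LD.T_CD
import Pool.Agent.Helper2.LD.T_FB
import Pool.Agent.Helper2.LD.T_IS
import Pool.Agent.Helper14.LD.T_F1
import Pool.Agent.Helper33.LD.T_FC
import Pool.Agent.Helper33.LD.T_L5
import Pool.Agent.Helper37.LD.T_SB
import Pool.Agent.Helper37.LD.T_FI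
import Pool.Agent.Helper42.LD.T_NC
import Pool.Agent.Helper42.LD.T_GD
import Pool.Agent.Helper44.LD.T_B1
import Pool.Agent.Helper44.LD.T_B3
import Pool.Agent.Helper44.LD.T_L8
import Pool.Agent.Helper45.LD.T_L7
import Pool.Agent.Helper32.LD.T_B2
import Pool.Agent.Helper79.LD.P_D12
import Pool.Agent.Helper81.LD.T_L6
import Pool.Agent.Helper84.LD.P_WM
import Pool.Agent.Helper96.LD.T_NB
import Pool.Agent.Helper96.LD.T_CL
import Pool.Agent.Helper96.LD.T_GE
import Pool.Agent.Helper96.LD.T_GK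
import Pool.Agent.Helper96.LD.T_GB

/-!
# LD project: the tiling part
-/

set_option autoImplicit false

namespace Pool.Agent.Helper32.LD

open Pool.Agent.Helper2.LD

theorem pMac : StMac := by
  have hSB : StSB := Pool.Agent.Helper37.LD.tSB
  have hFI : StFI := Pool.Agent.Helper37.LD.tFI hSB
  have hNB : StNB := Pool.Agent.Helper96.LD.tNB hSB
  have hCL : StCL := Pool.Agent.Helper96.LD.tCL hSB hNB
  have hGE : StGE := Pool.Agent.Helper96.LD.tGE Pool.Agent.Helper79.LD.pD12 hSB hCL hFI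
    Pool.Agent.Helper42.LD.tNC Pool.Agent.Helper42.LD.tGD Pool.Agent.Helper2.LD.tIS
  have hGK : StGK := Pool.Agent.Helper96.LD.tGK hSB hFI
  have hGB : StGB := Pool.Agent.Helper96.LD.tGB hSB hFI
  have hB1 : StB1 := Pool.Agent.Helper44.LD.tB1
  have hB2 : StB2 := Pool.Agent.Helper32.LDB.tB2 hB1
  have hB3 : StB3 := Pool.Agent.Helper44.LD.tB3
  have hX : ∀ m t, 1 ≤ m → 1 ≤ t → MCAx (bt m t) := mcax_bt hB1 hB2 hB3
  have hL8 : StL8 := Pool.Agent.Helper44.LD.tL8 hFI hX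
  have hFC : StFC := Pool.Agent.Helper33.LD.tFC hSB tFA
  have hF1 : StF1 := Pool.Agent.Helper14.LD.tF1 hSB (Pool.Agent.Helper2.LD.tFB hSB) hFC
  exact mac_of Pool.Agent.Helper84.LD.pWM hB1 hB2 hB3 hGE hGK hGB
    Pool.Agent.Helper33.LD.tL5 (Pool.Agent.Helper81.LD.tL6 hSB)
    (Pool.Agent.Helper45.LD.tL7 hSB) hL8 hF1
    (tF2 tF2a tF2t tF2s) tCD

end Pool.Agent.Helper32.LD
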