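import Pool.Agent.Helper32.LD.StT3

/-!
# LD project, tiling part: assembly of `StMac` from the modules
-/

set_option autoImplicit false

namespace Pool.Agent.Helper32.LD

open Pool.Agent.Helper2.LD

theorem mcax_bt (h1 : StB1) (h2 : StB2) (h3 : StB3) (m t : ℕ) (hm : 1 ≤ m) (ht : 1 ≤ t) :
    MCAx (bt m t) where
  ne := (h1 m t hm ht).ne
  simp := (h1 m t hm ht).simp
  fc := (h1 m t hm ht).fc
  fd := (h1 m t hm ht).fd
  f3 := (h1 m t hm ht).f3
  cyc := h2 m t hm ht
  cov := (h1 m t hm ht).cov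
  lnk := h3 m t hm ht
  con := (h1 m t hm ht).con
  out := (h1 m t hm ht).out
  nonempty := (h1 m t hm ht).nonempty

theorem coreax_bt (h1 : StB1) (h2 : StB2) (h3 : StB3) (hE : StGE) (hK : StGK) (hB : StGB)
    (h5 : StL5) (h6 : StL6) (h7 : StL7) (h8 : StL8) {I : Type} (m t al e : ℕ) (inf : ℕ → ℕ → I)
    (hm : 1 ≤ m) (ht : 1 ≤ t) (hal : 20 ≤ al) (hev : al % 2 = 0) (hea : 4 * e = 5 * al) :
    CoreAx (e + 4) e (btc m t al inf) := by
  have hX := mcax_bt h1 h2 h3 m t hm ht
  have gA : GeoA e (btc m t al inf) :=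
    hE (bt m t) al e _ _ _ hX (by omega) hev hea
  have gB : GeoB e (btc m t al inf) :=
    hB (bt m t) al e _ _ _ hX (by omega) hea
  have gK := hK (bt m t) al e (lbB m t al inf) (bsB al) (flB m t inf) hX (by omega) hev hea
  exact
    { conn := gB.conn
      bip := gA.bip
      girth := gA.girth
      nb := gB.nb
      per := gB.per
      adj := gB.adj
      flx := gB.flx
      iso := gA.iso
      k1 := gA.k1
      k2 := gA.k2
      k4 := gK
      k5 := by
        intro x y hxy hb
        refine h5 m t al inf hm ht hal x y ?_ hb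
        have : 4 * (e + 4) + 2 = 5 * al + 18 := by omega
        rw [← this]; exact hxy
      k6 := h6 m t al inf hm ht hal
      k7 := h7 m t al inf hm ht hal
      k8 := h8 m t al inf hm ht hal
      k9 := gB.k9
      link := gB.link }

theorem card_om (B D : Type) [Fintype B] [Fintype D] :
    Fintype.card (D × (B × Option B × Option B × Option B × Option B × Option B)) =
      Fintype.card D * (Fintype.card B * (Fintype.card B + 1) ^ 5) := by
  simp only [Fintype.card_prod, Fintype.card_option]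
  ring

theorem mac_of (hW : StWM) (h1 : StB1) (h2 : StB2) (h3 : StB3) (hE : StGE) (hK : StGK)
    (hB : StGB) (h5 : StL5) (h6 : StL6) (h7 : StL7) (h8 : StL8) (hF1 : StF1) (hF2 : StF2)
    (hC : StCD) : StMac := by
  obtain ⟨Sg, S, R, fS, fS', fR, M, c, w0, hc, hhead, hnot, hund, hcomp⟩ := hW
  obtain ⟨K0, hK0⟩ := hC (4 * (Fintype.card Sg + 1) * Fintype.card S * Fintype.card R) c
  refine ⟨fun a => ∃ n, M.Hlt (w0 a) (a + c) n, fun a B => ∃ n ≤ B, M.Hlt (w0 a) (a + c) n,
    fun a => 4 * (a + K0) + 5, hund, hcomp, ?_, ?_, ?_, ?_, ?_⟩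
  · rintro a B B' hBB ⟨n, hn, hh⟩
    exact ⟨n, hn.trans hBB, hh⟩
  · rintro a B ⟨n, _, hh⟩
    exact ⟨n, hh⟩
  · exact (Primrec.nat_add.comp (Primrec.nat_mul.comp (Primrec.const 4)
      (Primrec.nat_add.comp Primrec.id (Primrec.const K0))) (Primrec.const 5)).to_comp
  · intro a
    exact (hK0 a).1
  intro a ha
  classical
  obtain ⟨hk, hal, hev, h45, hNE, hcard⟩ := hK0 a
  set k := 4 * (a + K0) + 5 with hkdef
  set al := 4 * EE k / 5 with haldef
  let t := Nat.find ha
  have ht : M.Hlt (w0 a) (a + c) t := Nat.find_spec ha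
  have ht' : ∀ n < t, ¬ M.Hlt (w0 a) (a + c) n := fun n hn => Nat.find_min ha hn
  have ht1 : 1 ≤ t := by
    by_contra h0
    have : t = 0 := by omega
    rw [this] at ht
    exact hnot a ht
  have hm1 : 1 ≤ a + c := by omega
  have hHead : HeadOK M (w0 a) (a + c) t := by
    intro n hn
    obtain ⟨b, ⟨k1, hk1, hb1⟩, hb2⟩ := hhead a n
    refine ⟨b, ⟨k1, hk1, hb1⟩, hb2, ?_⟩
    constructor
    · intro hb
      by_contra hne
      refine ht' n (by omega) ⟨k1, hk1, ?_⟩
      rw [hb1, hb]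
    · intro hnt
      subst hnt
      obtain ⟨k2, hk2, hb3⟩ := ht
      rcases hb2 k2 hk2 with h4 | h4
      · rw [h4] at hb3; simp at hb3
      · rw [h4] at hb3
        simpa using hb3
  have : NeZero (5 * al) := ⟨by omega⟩
  have : Finite (BX (a + c) t) := by
    have : Finite {x : ℕ × ℕ // x.1 ≤ t ∧ x.2 ≤ (a + c) * 2 ^ x.1} := by
      refine Set.Finite.to_subtype (s := {x : ℕ × ℕ | x.1 ≤ t ∧ x.2 ≤ (a + c) * 2 ^ x.1}) ?_
      refine ((Set.finite_Iic t).prod (Set.finite_Iic ((a + c) * 2 ^ t))).subset ?_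
      rintro ⟨x, y⟩ ⟨hx, hy⟩
      simp only at hx hy
      refine ⟨hx, hy.trans ?_⟩
      exact Nat.mul_le_mul_left _ (Nat.pow_le_pow_right (by norm_num) hx)
    exact this
  have : Finite (BE (a + c) t) := by
    have : Finite {x : Bool × ℕ × ℕ // x.2.1 ≤ t ∧ x.2.2 ≤ (a + c) * 2 ^ x.2.1 ∧
        (x.1 = false → x.2.2 < (a + c) * 2 ^ x.2.1) ∧ (x.1 = true → x.2.1 < t)} := by
      refine Set.Finite.to_subtype (s := {x : Bool × ℕ × ℕ | x.2.1 ≤ t ∧
        x.2.2 ≤ (a + c) * 2 ^ x.2.1 ∧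
        (x.1 = false → x.2.2 < (a + c) * 2 ^ x.2.1) ∧ (x.1 = true → x.2.1 < t)}) ?_
      refine ((Set.finite_univ (α := Bool)).prod
        ((Set.finite_Iic t).prod (Set.finite_Iic ((a + c) * 2 ^ t)))).subset ?_
      rintro ⟨d, x, y⟩ ⟨hx, hy, -, -⟩
      simp only at hx hy
      refine ⟨Set.mem_univ _, hx, hy.trans ?_⟩
      exact Nat.mul_le_mul_left _ (Nat.pow_le_pow_right (by norm_num) hx)
    exact this
  have : Finite (BF (a + c) t) := by
    have : Finite {x : ℕ × ℕ // x.1 < t ∧ x.2 < (a + c) * 2 ^ x.1} := by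
      refine Set.Finite.to_subtype (s := {x : ℕ × ℕ | x.1 < t ∧ x.2 < (a + c) * 2 ^ x.1}) ?_
      refine ((Set.finite_Iic t).prod (Set.finite_Iic ((a + c) * 2 ^ t))).subset ?_
      rintro ⟨x, y⟩ ⟨hx, hy⟩
      simp only at hx hy
      refine ⟨hx.le, hy.le.trans ?_⟩
      exact Nat.mul_le_mul_left _ (Nat.pow_le_pow_right (by norm_num) hx.le)
    exact this
  let inf := infW M (w0 a) (a + c) t
  have hax : CoreAx (NN k) (EE k) (btc (a + c) t al inf) := by
    have := coreax_bt h1 h2 h3 hE hK hB h5 h6 h7 h8 (a + c) t al (EE k) inf hm1 ht1 hal hev h45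
    rw [hNE]; exact this
  refine ⟨SV (BX (a + c) t) (BE (a + c) t) al, BF (a + c) t × ZMod (5 * al),
    LbT (Inf Sg S R (a + c)) al, BsT (Inf Sg S R (a + c)) al, BL (Inf Sg S R (a + c)),
    Fintype.ofFinite _, Fintype.ofFinite _, inferInstance, inferInstance, inferInstance,
    btc (a + c) t al inf, hax, ?_, ?_⟩
  · intro W _ _ Mg L hL
    have hLab : LabAx (EE k + 4) (btc (a + c) t al inf) := by
      refine ⟨?_, hax.k6⟩
      have := hax.k5
      rw [hNE] at this
      exact this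
    obtain ⟨⟨g, hg⟩, hS⟩ := hF1 (a + c) t al (EE k) inf hm1 ht1 hal h45
      (mcax_bt h1 h2 h3 (a + c) t hm1 ht1) hLab Mg L hL inferInstance
    have : Nonempty {g : W // (L g).1 = none} := ⟨⟨g, hg⟩⟩
    have h9 := hF2 M (w0 a) (a + c) t _ _ _ hm1 ht1 hHead hS
    refine ⟨t, ?_, ht⟩
    have h10 : Nat.card {g : W // (L g).1 = none} ≤ Nat.card W :=
      Nat.card_le_card_of_injective _ Subtype.val_injective
    rw [← Nat.card_eq_fintype_card]
    omega
  · have e1 : Fintype.card (Inf Sg S R (a + c)) =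
        (a + c + 2) * (4 * (Fintype.card Sg + 1) * Fintype.card S * Fintype.card R) := by
      simp only [Inf, Fintype.card_prod, Fintype.card_option, Fintype.card_fin, Fintype.card_bool]
      ring
    have e2 : Fintype.card (BL (Inf Sg S R (a + c))) = 2 ^ 25 *
        ((a + c + 2) * (4 * (Fintype.card Sg + 1) * Fintype.card S * Fintype.card R)) := by
      simp only [BL, Fintype.card_prod, Fintype.card_fin]
      rw [← e1]
      simp only [Inf, Fintype.card_prod, Fintype.card_option, Fintype.card_fin,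
        Fintype.card_bool]
      ring
    have e3 : Fintype.card (Option (Bool × Fin (al - 1))) = 1 + 2 * (al - 1) := by
      simp only [Fintype.card_prod, Fintype.card_option, Fintype.card_fin, Fintype.card_bool]
      ring
    have e4 : Fintype.card (LbT (Inf Sg S R (a + c)) al) =
        (1 + 2 * (al - 1)) * (Fintype.card (BL (Inf Sg S R (a + c))) *
          (Fintype.card (BL (Inf Sg S R (a + c))) + 1) ^ 5) := by
      rw [← e3]
      exact card_om _ _
    have e5 : Fintype.card (BsT (Inf Sg S R (a + c)) al) =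
        (1 + 2 * (al - 1)) * (Fintype.card (BL (Inf Sg S R (a + c)))) := by
      rw [← e3]
      simp only [BsT]
      rw [Fintype.card_prod]
    rw [e4, e5, e2]
    exact hcard

end Pool.Agent.Helper32.LD
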