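import Pool.Agent.Helper2.LD.St2b

/-!
# LD project: module RankL
-/

set_option autoImplicit false

namespace Pool.Agent.Helper32.LD

open Pool.Agent.Helper2.LD

theorem ef_mono (hb : StEFb) {V W : Type} {G : SimpleGraph V} {H : SimpleGraph W} {r s : ℕ}
    (hrs : s ≤ r) {p : List (V × W)} (h : EF G H r p) : EF G H s p := by
  induction r with
  | zero =>
    have : s = 0 := by omega
    subst this; exact h
  | succ r ih =>
    rcases Nat.lt_or_ge r s with h1 | h1
    · have : s = r + 1 := by omega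
      subst this; exact h
    · exact ih h1 (hb.mono G H r p h)

/-- Choose the elements of a finite set one after the other. -/
theorem pick {V W : Type} {G : SimpleGraph V} {H : SimpleGraph W} (r : ℕ)
    (s : Finset V) : ∀ (p : List (V × W)), EF G H (r + s.card) p →
    ∃ q : List (V × W), EF G H r q ∧ (∀ x ∈ p, x ∈ q) ∧ ∀ v ∈ s, ∃ w, (v, w) ∈ q := by
  classical
  induction s using Finset.induction_on with
  | empty =>
    intro p h
    exact ⟨p, by simpa using h, fun x hx => hx, by simp⟩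
  | insert a s ha ih =>
    intro p h
    rw [Finset.card_insert_of_notMem ha] at h
    obtain ⟨b, hb⟩ := h.2.1 a
    obtain ⟨q, h1, h2, h3⟩ := ih ((a, b) :: p) hb
    refine ⟨q, h1, fun x hx => h2 x (List.mem_cons_of_mem _ hx), ?_⟩
    intro v hv
    rcases Finset.mem_insert.1 hv with rfl | hv
    · exact ⟨b, h2 _ (List.mem_cons_self)⟩
    · exact h3 v hv

theorem strL_mp {V W : Type} {G : SimpleGraph V} {H : SimpleGraph W} (m : ℕ)
    {p : List (V × W)} {v : V} {w : W} (h : EF G H (m + 1) p) (hvw : (v, w) ∈ p)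
    (hs : StrL m G v) : StrL m H w := by
  classical
  obtain ⟨s, hc, hv, hx⟩ := hs
  have h' : EF G H (1 + s.card) p := by rw [hc, Nat.add_comm]; exact h
  obtain ⟨q, h1, h2, h3⟩ := pick 1 s p h'
  choose g hg using fun v : {v // v ∈ s} => h3 v.1 v.2
  have hpi := h1.1
  have hinj : Function.Injective g := by
    intro a b hab
    exact Subtype.ext ((hpi _ (hg a) _ (hg b)).1.2 hab)
  refine ⟨s.attach.image g, ?_, ?_, ?_⟩
  · rw [Finset.card_image_of_injective _ hinj, Finset.card_attach, hc]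
  · intro hw
    obtain ⟨a, _, ha⟩ := Finset.mem_image.1 hw
    have := (hpi _ (hg a) _ (h2 _ hvw)).1.2 ha
    simp only at this
    exact hv (this ▸ a.2)
  · intro w' hw' x
    obtain ⟨a, _, ha⟩ := Finset.mem_image.1 hw'
    obtain ⟨x0, hx0⟩ := h1.2.2 x
    have hp0 : PI G H ((x0, x) :: q) := hx0
    have e1 := (hp0 _ (List.mem_cons_of_mem _ (h2 _ hvw)) _ (List.mem_cons_self)).2
    have e2 := (hp0 _ (List.mem_cons_of_mem _ (hg a)) _ (List.mem_cons_self)).2
    simp only at e1 e2
    rw [ha] at e2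
    rw [← e1, ← e2]
    exact hx a.1 a.2 x0

theorem mem_swap {V W : Type} {p : List (V × W)} {v : V} {w : W} (h : (v, w) ∈ p) :
    (w, v) ∈ p.map Prod.swap := List.mem_map.2 ⟨(v, w), h, rfl⟩

/-- Follow a visible class along an edge. -/
theorem go (hb : StEFb) (hr : StRank) {k : ℕ} (hk : 40 ≤ k) {K V W : Type} {code : K → Finset ℕ}
    {G : SimpleGraph V} {H : SimpleGraph W} (hcode : ∀ κ, ∀ i ∈ code κ, i ≤ SS k)
    {r : ℕ} (hrk : k - 18 ≤ r) {p : List (V × W)}
    {a : V} {b : W} (h : EF G H r ((a, b) :: p)) (c : Cl K) (hc : c.ok code)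
    (ha : Is k code G c a) : Is k code H c b := by
  have h' : EF G H (k - 18) ((a, b) :: p) := ef_mono hb hrk h
  exact (hr.cls k hk code c hcode hc G H ((a, b) :: p) a b h' (List.mem_cons_self)).1 ha

theorem adj_mp (hb : StEFb) {V W : Type} {G : SimpleGraph V} {H : SimpleGraph W} {r : ℕ}
    {p : List (V × W)} (h : EF G H r p) {a a' : V} {b b' : W} (h1 : (a, b) ∈ p)
    (h2 : (a', b') ∈ p) (ha : G.Adj a a') : H.Adj b b' :=
  ((hb.pi G H r p h) _ h1 _ h2).2.1 ha

theorem strAt_mp (hb : StEFb) (hr : StRank) (hs : StStrL) {k : ℕ} (hk : 40 ≤ k) {K V W : Type}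
    {code : K → Finset ℕ}
    {G : SimpleGraph V} {H : SimpleGraph W} (hcode : ∀ κ, ∀ i ∈ code κ, i ≤ SS k)
    (hG : LocAx k code G) (hH : LocAx k code H) {p : List (V × W)} {v : V} {w : W}
    (h : EF G H (k - 2) p) (hvw : (v, w) ∈ p) (hv : Plv G v) (κ : K)
    (hst : StrAt k code G v κ) : Plv H w ∧ StrAt k code H w κ := by
  have hw : Plv H w := (hr.pl G H p v w (ef_mono hb (by omega) h) hvw).1 hv
  refine ⟨hw, ?_⟩
  obtain ⟨z, y, x, a, hz, hzy, hy, hyx, hx, hxa, ha, hav, hL⟩ := (hs k hk code G hG v κ hv).1 hst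
  have e2 : k - 2 = (k - 3) + 1 := by omega
  have e3 : k - 3 = (k - 4) + 1 := by omega
  have e4 : k - 4 = (k - 5) + 1 := by omega
  have e5 : k - 5 = (k - 6) + 1 := by omega
  rw [e2] at h
  obtain ⟨z', h1⟩ := h.2.1 z
  have hz' := go hb hr hk hcode (by omega) h1 (Cl.l κ) trivial hz
  have hL' : StrL (MM k) H z' := by
    have h1' : EF G H (MM k + 1) ((z, z') :: p) := by
      have : MM k + 1 = k - 3 := by unfold MM; omega
      rw [this]; exact h1
    exact strL_mp (MM k) h1' (List.mem_cons_self) hL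
  rw [e3] at h1
  obtain ⟨y', h2⟩ := h1.2.1 y
  have hy' := go hb hr hk hcode (by omega) h2 (Cl.r κ) trivial hy
  have azy := adj_mp hb h2 (List.mem_cons_of_mem _ (List.mem_cons_self)) (List.mem_cons_self) hzy
  rw [e4] at h2
  obtain ⟨x', h3⟩ := h2.2.1 x
  have hx' := go hb hr hk hcode (by omega) h3 (Cl.a2 κ) trivial hx
  have ayx := adj_mp hb h3 (List.mem_cons_of_mem _ (List.mem_cons_self)) (List.mem_cons_self) hyx
  rw [e5] at h3
  obtain ⟨a', h4⟩ := h3.2.1 a
  have ha' := go hb hr hk hcode (by omega) h4 (Cl.a1 κ) trivial ha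
  have axa := adj_mp hb h4 (List.mem_cons_of_mem _ (List.mem_cons_self)) (List.mem_cons_self) hxa
  have aav := adj_mp hb h4 (List.mem_cons_self)
    (List.mem_cons_of_mem _ (List.mem_cons_of_mem _ (List.mem_cons_of_mem _
      (List.mem_cons_of_mem _ hvw)))) hav
  exact (hs k hk code H hH w κ hw).2
    ⟨z', y', x', a', hz', azy, hy', ayx, hx', axa, ha', aav, hL'⟩

theorem pRankL (hb : StEFb) (hr : StRank) (hs : StStrL) : StRankL := by
  constructor
  · intro m V W G H p v w h hvw
    refine ⟨strL_mp m h hvw, fun h' => ?_⟩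
    exact strL_mp m (hb.symm G H _ p h) (mem_swap hvw) h'
  · intro k hk K V W code G H hcode hG hH p v w h hvw hv κ
    have hw : Plv H w := (hr.pl G H p v w (ef_mono hb (by omega) h) hvw).1 hv
    refine ⟨fun h' => (strAt_mp hb hr hs hk hcode hG hH h hvw hv κ h').2, fun h' => ?_⟩
    exact (strAt_mp hb hr hs hk hcode hH hG (hb.symm G H _ p h) (mem_swap hvw) hw κ h').2

end Pool.Agent.Helper32.LD
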