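import Pool.Agent.Helper2.LD.St3

/-!
# LD project, tiling part: subdivided complexes with pentagonal faces. Statements.
-/

set_option autoImplicit false

namespace Pool.Agent.Helper32.LD

open Pool.Agent.Helper2.LD

/-- An oriented macro graph with pentagonal faces. An arc is an edge with a direction:
`(ε, false)` goes from `tl ε` to `hd ε`, `(ε, true)` from `hd ε` to `tl ε`. -/
structure MC (X E F : Type) where
  tl : E → X
  hd : E → X
  arc : F → ZMod 5 → E × Bool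

/-- The reversed arc. -/
def rev {E : Type} (A : E × Bool) : E × Bool := (A.1, !A.2)

/-- Vertices of the subdivided graph: macro vertices, and the inner points of the edges. -/
abbrev SV (X E : Type) (al : ℕ) : Type := X ⊕ (E × Fin (al - 1))

namespace MC

variable {X E F : Type} (C : MC X E F)

/-- Source of an arc. -/
def src (A : E × Bool) : X := if A.2 = true then C.hd A.1 else C.tl A.1

/-- Target of an arc. -/
def dst (A : E × Bool) : X := if A.2 = true then C.tl A.1 else C.hd A.1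

/-- The point at distance `i` from the tail of the edge `ε`. -/
def ptE (al : ℕ) (ε : E) (i : ℕ) : SV X E al :=
  if h : 0 < i ∧ i < al then Sum.inr (ε, ⟨i - 1, by omega⟩)
  else if i = 0 then Sum.inl (C.tl ε) else Sum.inl (C.hd ε)

/-- The point at distance `i` from the source of the arc `A`. -/
def pt (al : ℕ) (A : E × Bool) (i : ℕ) : SV X E al :=
  if A.2 = true then C.ptE al A.1 (al - i) else C.ptE al A.1 i

/-- The subdivided graph. -/
def sub (al : ℕ) : SimpleGraph (SV X E al) :=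
  SimpleGraph.fromRel fun x y => ∃ (A : E × Bool) (i : ℕ), i < al ∧ x = C.pt al A i ∧
    y = C.pt al A (i + 1)

/-- The boundary of a face, as a periodic sequence of points. -/
def fpt (al : ℕ) (f : F) (j : ℕ) : SV X E al :=
  C.pt al (C.arc f ((j / al : ℕ) : ZMod 5)) (j % al)

/-- The core complex of a subdivided complex. -/
def core {Λ B FB : Type} (al : ℕ) (lb : SV X E al → Λ) (bs : Λ → B) (fl : F → FB) :
    Core (SV X E al) (F × ZMod (5 * al)) Λ B FB where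
  G := C.sub al
  ow q := C.fpt al q.1 q.2.val
  nx := Equiv.prodCongr (Equiv.refl F) (Equiv.addRight 1)
  lb := lb
  bs := bs
  fl q := fl q.1

end MC

/-- Axioms of a macro complex. -/
structure MCAx {X E F : Type} (C : MC X E F) : Prop where
  ne : ∀ ε, C.tl ε ≠ C.hd ε
  simp : ∀ A B, C.src A = C.src B → C.dst A = C.dst B → A = B
  fc : ∀ f i, C.dst (C.arc f i) = C.src (C.arc f (i + 1))
  fd : ∀ f i j, C.src (C.arc f i) = C.src (C.arc f j) → i = j
  f3 : ∀ f g (i1 i2 i3 j1 j2 j3 : ZMod 5), i1 ≠ i2 → i1 ≠ i3 → i2 ≠ i3 →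
    C.src (C.arc f i1) = C.src (C.arc g j1) → C.src (C.arc f i2) = C.src (C.arc g j2) →
    C.src (C.arc f i3) = C.src (C.arc g j3) → f = g
  cyc : ∀ (n : ℕ) (A : ℕ → E × Bool), 1 ≤ n → n ≤ 5 → (∀ j, A (j + n) = A j) →
    (∀ j, C.dst (A j) = C.src (A (j + 1))) → (∀ j, A (j + 1) ≠ rev (A j)) →
    n = 5 ∧ ∃ (f : F) (s : ZMod 5), (∀ j : ℕ, A j = C.arc f (s + (j : ZMod 5))) ∨
      (∀ j : ℕ, A j = rev (C.arc f (s - (j : ZMod 5))))
  cov : ∀ A, ∃ f i, C.arc f i = A ∨ C.arc f i = rev A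
  lnk : ∀ (v : X) (P : E × Bool → Prop),
    (∀ f i, C.src (C.arc f (i + 1)) = v → (P (C.arc f (i + 1)) ↔ P (rev (C.arc f i)))) →
    ∀ A B, C.src A = v → C.src B = v → P A → P B
  con : ∀ x y, Relation.ReflTransGen (fun u v => ∃ A, C.src A = u ∧ C.dst A = v) x y
  out : ∀ x, ∃ A, C.src A = x
  nonempty : Nonempty X

/-! ## Modules on subdivided complexes -/

/-- **Module SB** (basic facts on subdivided graphs). -/
structure StSB : Prop where
  pt0 : ∀ {X E F : Type} (C : MC X E F) (al : ℕ) (A : E × Bool), 1 ≤ al →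
    C.pt al A 0 = Sum.inl (C.src A)
  ptal : ∀ {X E F : Type} (C : MC X E F) (al : ℕ) (A : E × Bool), 1 ≤ al →
    C.pt al A al = Sum.inl (C.dst A)
  ptrev : ∀ {X E F : Type} (C : MC X E F) (al : ℕ) (A : E × Bool) (i : ℕ), i ≤ al →
    C.pt al (rev A) i = C.pt al A (al - i)
  inter : ∀ {X E F : Type} (C : MC X E F) (al : ℕ) (A B : E × Bool) (i j : ℕ), 0 < i → i < al →
    j ≤ al → C.pt al A i = C.pt al B j → (B = A ∧ j = i) ∨ (B = rev A ∧ j = al - i)
  cover : ∀ {X E F : Type} (C : MC X E F) (al : ℕ) (x : SV X E al),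
    (∃ v, x = Sum.inl v) ∨ ∃ ε i, 0 < i ∧ i < al ∧ x = C.pt al (ε, false) i
  adj : ∀ {X E F : Type} (C : MC X E F) (al : ℕ), (∀ ε, C.tl ε ≠ C.hd ε) → 1 ≤ al →
    ∀ (A : E × Bool) (i : ℕ), i < al → (C.sub al).Adj (C.pt al A i) (C.pt al A (i + 1))
  nbI : ∀ {X E F : Type} (C : MC X E F) (al : ℕ) (A : E × Bool) (i : ℕ) (y : SV X E al),
    0 < i → i < al → (C.sub al).Adj (C.pt al A i) y →
    y = C.pt al A (i - 1) ∨ y = C.pt al A (i + 1)
  nbM : ∀ {X E F : Type} (C : MC X E F) (al : ℕ) (v : X) (y : SV X E al), 1 ≤ al →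
    (C.sub al).Adj (Sum.inl v) y → ∃ A, C.src A = v ∧ y = C.pt al A 1
  fper : ∀ {X E F : Type} (C : MC X E F) (al : ℕ) (f : F) (j : ℕ), 1 ≤ al →
    C.fpt al f (j + 5 * al) = C.fpt al f j
  fptE : ∀ {X E F : Type} (C : MC X E F) (al : ℕ) (f : F) (i j : ℕ), MCAx C → 1 ≤ al → j ≤ al →
    C.fpt al f (i * al + j) = C.pt al (C.arc f (i : ZMod 5)) j
  nxt : ∀ {X E F Λ B FB : Type} (C : MC X E F) (al : ℕ) (lb : SV X E al → Λ) (bs : Λ → B)
    (fl : F → FB) (q : F × ZMod (5 * al)) (j : ℕ), 1 ≤ al →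
    (C.core al lb bs fl).ow (((C.core al lb bs fl).nx^[j]) q) = C.fpt al q.1 (q.2.val + j)
  nxtS : ∀ {X E F Λ B FB : Type} (C : MC X E F) (al : ℕ) (lb : SV X E al → Λ) (bs : Λ → B)
    (fl : F → FB) (q : F × ZMod (5 * al)) (j : ℕ), 1 ≤ al →
    (C.core al lb bs fl).ow (((C.core al lb bs fl).nx.symm^[j]) q) =
      C.fpt al q.1 (q.2.val + (5 * al - 1) * j)
  sur : ∀ {F : Type} (al : ℕ) (f : F) (j : ℕ), 1 ≤ al → ∃ q : F × ZMod (5 * al), q.1 = f ∧
    q.2.val = j % (5 * al)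

/-- **Module NB** (sequences without backtracking). -/
def StNB : Prop :=
  ∀ {X E F : Type} (C : MC X E F) (al : ℕ), MCAx C → 4 ≤ al → ∀ p : ℕ → SV X E al,
    (∀ i, (C.sub al).Adj (p i) (p (i + 1))) → (∀ i, p i ≠ p (i + 2)) →
    ∃ (i0 : ℕ) (A : ℕ → E × Bool), (∀ j, C.dst (A j) = C.src (A (j + 1))) ∧
      (∀ j, A (j + 1) ≠ rev (A j)) ∧ ∀ j i, i ≤ al → p (i0 + j * al + i) = C.pt al (A j) i

/-- **Module CL** (short closed sequences without backtracking are boundaries of faces). -/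
def StCL : Prop :=
  ∀ {X E F : Type} (C : MC X E F) (al : ℕ), MCAx C → 4 ≤ al → ∀ (p : ℕ → SV X E al) (n : ℕ),
    1 ≤ n → n ≤ 5 * al → (∀ i, p (i + n) = p i) →
    (∀ i, (C.sub al).Adj (p i) (p (i + 1))) → (∀ i, p i ≠ p (i + 2)) →
    n = 5 * al ∧ ∃ (f : F) (s : ℕ), (∀ j, p j = C.fpt al f (s + j)) ∨
      (∀ j, p j = C.fpt al f (s + (5 * al - 1) * j))

/-- **Module FI** (the boundary of a face is injective, and has no backtracking). -/
def StFI : Prop :=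
  ∀ {X E F : Type} (C : MC X E F) (al : ℕ), MCAx C → 4 ≤ al → ∀ (f : F),
    (∀ i, (C.sub al).Adj (C.fpt al f i) (C.fpt al f (i + 1))) ∧
    (∀ i, C.fpt al f i ≠ C.fpt al f (i + 2)) ∧
    (∀ i j, i < 5 * al → j < 5 * al → C.fpt al f i = C.fpt al f j → i = j)

/-- **Module NC** (general graphs): girth from closed sequences without backtracking. -/
def StNC : Prop :=
  ∀ {V : Type} (G : SimpleGraph V) (L : ℕ),
    (∀ (p : ℕ → V) (n : ℕ), 1 ≤ n → (∀ i, p (i + n) = p i) → (∀ i, G.Adj (p i) (p (i + 1))) →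
      (∀ i, p i ≠ p (i + 2)) → L < n) → NoCyc G L

/-- **Module GD** (general graphs): two different last steps of geodesics give a closed sequence. -/
def StGD : Prop :=
  ∀ {V : Type} (G : SimpleGraph V) (r : ℕ), 1 ≤ r →
    (∀ u z w w' (d : ℕ), d + 1 < r → G.edist u z = ((d + 1 : ℕ) : ℕ∞) →
      G.Adj z w → G.edist u w = (d : ℕ∞) → G.Adj z w' → G.edist u w' = (d : ℕ∞) → w = w') →
    ∀ u z w w', G.edist u z = (r : ℕ∞) →
      G.Adj z w → G.edist u w = ((r - 1 : ℕ) : ℕ∞) →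
      G.Adj z w' → G.edist u w' = ((r - 1 : ℕ) : ℕ∞) → w ≠ w' → 2 ≤ r →
      ∃ p : ℕ → V, (∀ i, p (i + 2 * r) = p i) ∧ (∀ i, G.Adj (p i) (p (i + 1))) ∧
        (∀ i, p i ≠ p (i + 2)) ∧ p 0 = u ∧ p r = z ∧ p (r - 1) = w ∧ p (r + 1) = w'

/-- **Module IS** (general graphs): paths without backtracking are geodesics, up to half the
girth. -/
def StIS : Prop :=
  ∀ {V : Type} (G : SimpleGraph V) (r : ℕ), Bip G →
    (∀ u z w w' (d : ℕ), d + 1 < r → G.edist u z = ((d + 1 : ℕ) : ℕ∞) →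
      G.Adj z w → G.edist u w = (d : ℕ∞) → G.Adj z w' → G.edist u w' = (d : ℕ∞) → w = w') →
    ∀ p : ℕ → V, (∀ i, G.Adj (p i) (p (i + 1))) → (∀ i, p i ≠ p (i + 2)) →
      ∀ j ≤ r, G.edist (p 0) (p j) = (j : ℕ∞)

/-- **Module GE** (the metric axioms of the core). -/
structure GeoA {V Q Λ B FB : Type} (e : ℕ) (c : Core V Q Λ B FB) : Prop where
  bip : Bip c.G
  girth : NoCyc c.G (4 * e - 1)
  iso : ∀ q, ∀ j ≤ 2 * e, c.G.edist (c.ow q) (c.ow ((c.nx^[j]) q)) = (j : ℕ∞)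
  k1 : ∀ u z w w' (d : ℕ), d + 1 < 2 * e → c.G.edist u z = ((d + 1 : ℕ) : ℕ∞) →
    c.G.Adj z w → c.G.edist u w = (d : ℕ∞) → c.G.Adj z w' → c.G.edist u w' = (d : ℕ∞) → w = w'
  k2 : ∀ u z w w', c.G.edist u z = ((2 * e : ℕ) : ℕ∞) →
    c.G.Adj z w → c.G.edist u w = ((2 * e - 1 : ℕ) : ℕ∞) →
    c.G.Adj z w' → c.G.edist u w' = ((2 * e - 1 : ℕ) : ℕ∞) → w ≠ w' →
    ∃ q, c.ow q = u ∧ c.ow ((c.nx^[2 * e]) q) = z ∧
      ((w = c.ow ((c.nx^[2 * e - 1]) q) ∧ w' = c.ow ((c.nx^[2 * e + 1]) q)) ∨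
        (w' = c.ow ((c.nx^[2 * e - 1]) q) ∧ w = c.ow ((c.nx^[2 * e + 1]) q)))

def StGE : Prop :=
  ∀ {X E F Λ B FB : Type} (C : MC X E F) (al e : ℕ) (lb : SV X E al → Λ) (bs : Λ → B)
    (fl : F → FB), MCAx C → 4 ≤ al → al % 2 = 0 → 4 * e = 5 * al → GeoA e (C.core al lb bs fl)

/-- **Module GK** (antipodes determine corners). -/
def StGK : Prop :=
  ∀ {X E F Λ B FB : Type} (C : MC X E F) (al e : ℕ) (lb : SV X E al → Λ) (bs : Λ → B)
    (fl : F → FB), MCAx C → 4 ≤ al → al % 2 = 0 → 4 * e = 5 * al →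
    ∀ q q', (C.core al lb bs fl).ow q = (C.core al lb bs fl).ow q' →
      (C.core al lb bs fl).ow (((C.core al lb bs fl).nx^[2 * e]) q) =
        (C.core al lb bs fl).ow (((C.core al lb bs fl).nx^[2 * e]) q') → q = q'

/-- The remaining geometric axioms of the core. -/
structure GeoB {V Q Λ B FB : Type} (e : ℕ) (c : Core V Q Λ B FB) : Prop where
  conn : c.G.Connected
  nb : ∀ x, ∃ w, c.G.Adj x w
  per : ∀ q, (c.nx^[4 * e]) q = q
  adj : ∀ q, c.G.Adj (c.ow q) (c.ow (c.nx q))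
  flx : ∀ q, c.fl (c.nx q) = c.fl q
  k9 : ∀ x w, c.G.Adj x w → ∃ q, c.ow q = x ∧ (c.ow (c.nx q) = w ∨ c.ow (c.nx.symm q) = w)
  link : ∀ x (P : V → Prop), (∀ q, c.ow q = x → (P (c.ow (c.nx q)) ↔ P (c.ow (c.nx.symm q)))) →
    ∀ w w', c.G.Adj x w → c.G.Adj x w' → P w → P w'

/-- **Module GB** (the other geometric axioms). -/
def StGB : Prop :=
  ∀ {X E F Λ B FB : Type} (C : MC X E F) (al e : ℕ) (lb : SV X E al → Λ) (bs : Λ → B)
    (fl : F → FB), MCAx C → 4 ≤ al → 4 * e = 5 * al → GeoB e (C.core al lb bs fl)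

end Pool.Agent.Helper32.LD
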