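import Pool.Agent.Helper32.LD.StT1

/-!
# LD project, tiling part: the binary tiling and its labels. Statements.
-/

set_option autoImplicit false

namespace Pool.Agent.Helper32.LD

open Pool.Agent.Helper2.LD

/-- Macro vertices `(n, k)`: row `n ≤ t`, position `k ≤ m * 2 ^ n`. -/
def BX (m t : ℕ) : Type := {x : ℕ × ℕ // x.1 ≤ t ∧ x.2 ≤ m * 2 ^ x.1}

/-- Macro edges `(d, n, k)`: `d = false`: from `(n, k)` to `(n, k + 1)`;
`d = true`: from `(n, k)` to `(n + 1, 2 * k)`. -/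
def BE (m t : ℕ) : Type :=
  {x : Bool × ℕ × ℕ // x.2.1 ≤ t ∧ x.2.2 ≤ m * 2 ^ x.2.1 ∧
    (x.1 = false → x.2.2 < m * 2 ^ x.2.1) ∧ (x.1 = true → x.2.1 < t)}

/-- Faces `(n, k)`: `n < t`, `k < m * 2 ^ n`. -/
def BF (m t : ℕ) : Type := {x : ℕ × ℕ // x.1 < t ∧ x.2 < m * 2 ^ x.1}

theorem pow_dbl (m n k : ℕ) (h : k ≤ m * 2 ^ n) : 2 * k ≤ m * 2 ^ (n + 1) := by
  rw [pow_succ]; nlinarith

theorem pow_dbl1 (m n k : ℕ) (h : k < m * 2 ^ n) : 2 * k + 1 < m * 2 ^ (n + 1) := by
  rw [pow_succ]; nlinarith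

theorem pow_dbl0 (m n k : ℕ) (h : k < m * 2 ^ n) : 2 * k < m * 2 ^ (n + 1) := by
  rw [pow_succ]; nlinarith

/-- The macro complex of the binary tiling. -/
def bt (m t : ℕ) : MC (BX m t) (BE m t) (BF m t) where
  tl ε := ⟨(ε.1.2.1, ε.1.2.2), ε.2.1, ε.2.2.1⟩
  hd ε := if h : ε.1.1 = false then ⟨(ε.1.2.1, ε.1.2.2 + 1), ε.2.1, ε.2.2.2.1 h⟩
    else ⟨(ε.1.2.1 + 1, 2 * ε.1.2.2), ε.2.2.2.2 (by simpa using h), pow_dbl _ _ _ ε.2.2.1⟩
  arc f i :=
    if i.val = 0 then
      (⟨(false, f.1.1, f.1.2), f.2.1.le, f.2.2.le, fun _ => f.2.2, fun h => by simp at h⟩, false)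
    else if i.val = 1 then
      (⟨(true, f.1.1, f.1.2 + 1), f.2.1.le, f.2.2, fun h => by simp at h, fun _ => f.2.1⟩, false)
    else if i.val = 2 then
      (⟨(false, f.1.1 + 1, 2 * f.1.2 + 1), f.2.1, (pow_dbl1 _ _ _ f.2.2).le,
        fun _ => pow_dbl1 _ _ _ f.2.2, fun h => by simp at h⟩, true)
    else if i.val = 3 then
      (⟨(false, f.1.1 + 1, 2 * f.1.2), f.2.1, (pow_dbl0 _ _ _ f.2.2).le,
        fun _ => pow_dbl0 _ _ _ f.2.2, fun h => by simp at h⟩, true)
    else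
      (⟨(true, f.1.1, f.1.2), f.2.1.le, f.2.2.le, fun h => by simp at h, fun _ => f.2.1⟩, true)

/-- **Module B1** (the simple axioms). -/
structure BTa (m t : ℕ) : Prop where
  ne : ∀ ε, (bt m t).tl ε ≠ (bt m t).hd ε
  simp : ∀ A B, (bt m t).src A = (bt m t).src B → (bt m t).dst A = (bt m t).dst B → A = B
  fc : ∀ f i, (bt m t).dst ((bt m t).arc f i) = (bt m t).src ((bt m t).arc f (i + 1))
  fd : ∀ f i j, (bt m t).src ((bt m t).arc f i) = (bt m t).src ((bt m t).arc f j) → i = j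
  f3 : ∀ f g (i1 i2 i3 j1 j2 j3 : ZMod 5), i1 ≠ i2 → i1 ≠ i3 → i2 ≠ i3 →
    (bt m t).src ((bt m t).arc f i1) = (bt m t).src ((bt m t).arc g j1) →
    (bt m t).src ((bt m t).arc f i2) = (bt m t).src ((bt m t).arc g j2) →
    (bt m t).src ((bt m t).arc f i3) = (bt m t).src ((bt m t).arc g j3) → f = g
  cov : ∀ A, ∃ f i, (bt m t).arc f i = A ∨ (bt m t).arc f i = rev A
  con : ∀ x y, Relation.ReflTransGen (fun u v => ∃ A, (bt m t).src A = u ∧ (bt m t).dst A = v) x y
  out : ∀ x, ∃ A, (bt m t).src A = x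
  nonempty : Nonempty (BX m t)

def StB1 : Prop := ∀ m t, 1 ≤ m → 1 ≤ t → BTa m t

/-- **Module B2** (closed walks of length at most five). -/
def StB2 : Prop :=
  ∀ m t, 1 ≤ m → 1 ≤ t → ∀ (n : ℕ) (A : ℕ → BE m t × Bool), 1 ≤ n → n ≤ 5 →
    (∀ j, A (j + n) = A j) →
    (∀ j, (bt m t).dst (A j) = (bt m t).src (A (j + 1))) → (∀ j, A (j + 1) ≠ rev (A j)) →
    n = 5 ∧ ∃ (f : BF m t) (s : ZMod 5), (∀ j : ℕ, A j = (bt m t).arc f (s + (j : ZMod 5))) ∨
      (∀ j : ℕ, A j = rev ((bt m t).arc f (s - (j : ZMod 5))))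

/-- **Module B3** (links are connected). -/
def StB3 : Prop :=
  ∀ m t, 1 ≤ m → 1 ≤ t → ∀ (v : BX m t) (P : BE m t × Bool → Prop),
    (∀ f i, (bt m t).src ((bt m t).arc f (i + 1)) = v →
      (P ((bt m t).arc f (i + 1)) ↔ P (rev ((bt m t).arc f i)))) →
    ∀ A B, (bt m t).src A = v → (bt m t).src B = v → P A → P B

/-! ## Labels -/

/-- Base labels: row mod 32, position mod `2 ^ 20`, and further information. -/
abbrev BL (I : Type) : Type := Fin 32 × Fin (2 ^ 20) × I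

/-- The base label of `(n, k)`. -/
def bl {I : Type} (inf : ℕ → ℕ → I) (n k : ℕ) : BL I :=
  (⟨n % 32, Nat.mod_lt _ (by norm_num)⟩, ⟨k % 2 ^ 20, Nat.mod_lt _ (by norm_num)⟩, inf n k)

/-- Neighbourhood labels. -/
abbrev Om (I : Type) : Type :=
  BL I × Option (BL I) × Option (BL I) × Option (BL I) × Option (BL I) × Option (BL I)

/-- The neighbourhood label of `(n, k)`: itself, left, right, down, the two ends of the macro
edge above (tails). -/
def om {I : Type} (m t : ℕ) (inf : ℕ → ℕ → I) (n k : ℕ) : Om I :=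
  (bl inf n k, if 0 < k then some (bl inf n (k - 1)) else none,
    if k < m * 2 ^ n then some (bl inf n (k + 1)) else none,
    if n < t then some (bl inf (n + 1) (2 * k)) else none,
    if 0 < n then some (bl inf (n - 1) (k / 2)) else none,
    if 0 < n ∧ 0 < k / 2 then some (bl inf (n - 1) (k / 2 - 1)) else none)

/-- Full labels: position on the edge (`none` for macro vertices) and neighbourhood label of the
tail. -/
abbrev LbT (I : Type) (al : ℕ) : Type := Option (Bool × Fin (al - 1)) × Om I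

/-- Basic labels. -/
abbrev BsT (I : Type) (al : ℕ) : Type := Option (Bool × Fin (al - 1)) × BL I

/-- The full label of a point. -/
def lbB {I : Type} (m t al : ℕ) (inf : ℕ → ℕ → I) : SV (BX m t) (BE m t) al → LbT I al
  | Sum.inl x => (none, om m t inf x.1.1 x.1.2)
  | Sum.inr (ε, i) => (some (ε.1.1, i), om m t inf ε.1.2.1 ε.1.2.2)

/-- The basic label. -/
def bsB {I : Type} (al : ℕ) (l : LbT I al) : BsT I al := (l.1, l.2.1)

/-- The label of a face. -/
def flB {I : Type} (m t : ℕ) (inf : ℕ → ℕ → I) (f : BF m t) : BL I := bl inf f.1.1 f.1.2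

/-- The core complex of the binary tiling. -/
def btc {I : Type} (m t al : ℕ) (inf : ℕ → ℕ → I) :
    Core (SV (BX m t) (BE m t) al) (BF m t × ZMod (5 * al)) (LbT I al) (BsT I al) (BL I) :=
  (bt m t).core al (lbB m t al inf) (bsB al) (flB m t inf)

/-- **Module L5** (points with the same basic label are far from each other). -/
def StL5 : Prop :=
  ∀ {I : Type} (m t al : ℕ) (inf : ℕ → ℕ → I), 1 ≤ m → 1 ≤ t → 20 ≤ al →
    ∀ x y, (btc m t al inf).G.edist x y ≤ ((5 * al + 18 : ℕ) : ℕ∞) →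
      bsB al (lbB m t al inf x) = bsB al (lbB m t al inf y) → x = y

/-- **Module L6** (labels determine the basic labels of the neighbours). -/
def StL6 : Prop :=
  ∀ {I : Type} (m t al : ℕ) (inf : ℕ → ℕ → I), 1 ≤ m → 1 ≤ t → 20 ≤ al →
    ∀ x x' w, lbB m t al inf x = lbB m t al inf x' → (btc m t al inf).G.Adj x w →
      ∃ w', (btc m t al inf).G.Adj x' w' ∧ bsB al (lbB m t al inf w') = bsB al (lbB m t al inf w)

/-- **Module L7** (labels determine the corners). -/
def StL7 : Prop :=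
  ∀ {I : Type} (m t al : ℕ) (inf : ℕ → ℕ → I), 1 ≤ m → 1 ≤ t → 20 ≤ al →
    ∀ q x', (btc m t al inf).lb ((btc m t al inf).ow q) = (btc m t al inf).lb x' →
      ∃ q', (btc m t al inf).ow q' = x' ∧ (btc m t al inf).fl q' = (btc m t al inf).fl q ∧
      (btc m t al inf).bs ((btc m t al inf).lb ((btc m t al inf).ow ((btc m t al inf).nx q'))) =
        (btc m t al inf).bs ((btc m t al inf).lb ((btc m t al inf).ow ((btc m t al inf).nx q))) ∧
      (btc m t al inf).bs ((btc m t al inf).lb ((btc m t al inf).ow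
          ((btc m t al inf).nx.symm q'))) =
        (btc m t al inf).bs ((btc m t al inf).lb ((btc m t al inf).ow
          ((btc m t al inf).nx.symm q)))

/-- **Module L8** (corners of a vertex have different face labels). -/
def StL8 : Prop :=
  ∀ {I : Type} (m t al : ℕ) (inf : ℕ → ℕ → I), 1 ≤ m → 1 ≤ t → 20 ≤ al →
    ∀ q q', (btc m t al inf).ow q = (btc m t al inf).ow q' →
      (btc m t al inf).fl q = (btc m t al inf).fl q' → q = q'

end Pool.Agent.Helper32.LD
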