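import Mathlib

/-!
# LD project, tiling part: word machines (interface between machines and tilings)
-/

set_option autoImplicit false

namespace Pool.Agent.Helper32.LD

/-- A word machine: rows are words; the next row is obtained by a pass from the left, a pass from
the right, and replacing every symbol by two symbols. -/
structure WM (Sg S R : Type) where
  s0 : S
  r0 : R
  dl : S → Sg → S
  dr : R → Sg → R
  c1 : Sg → S → R → Sg
  c2 : Sg → S → R → Sg
  /-- `none` for ordinary symbols, `some b` for head symbols (`b`: halting) -/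
  hs : Sg → Option Bool

namespace WM

variable {Sg S R : Type} (M : WM Sg S R)

/-- State of the left pass before reading the symbol `k`. -/
def sl (w : ℕ → Sg) : ℕ → S
  | 0 => M.s0
  | (k + 1) => M.dl (sl w k) (w k)

/-- State of the right pass after reading the last `j` symbols of the word `w` of length `len`. -/
def srr (w : ℕ → Sg) (len : ℕ) : ℕ → R
  | 0 => M.r0
  | (j + 1) => M.dr (srr w len j) (w (len - 1 - j))

/-- State of the right pass after reading the symbols from `len - 1` down to `k`. -/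
def sr (w : ℕ → Sg) (len k : ℕ) : R := M.srr w len (len - k)

/-- The next row. -/
def next (w : ℕ → Sg) (len : ℕ) (k : ℕ) : Sg :=
  if k % 2 = 0 then M.c1 (w (k / 2)) (M.sl w (k / 2)) (M.sr w len (k / 2 + 1))
  else M.c2 (w (k / 2)) (M.sl w (k / 2)) (M.sr w len (k / 2 + 1))

/-- The rows; row `n` has length `m * 2 ^ n`. -/
def row (w0 : ℕ → Sg) (m : ℕ) : ℕ → ℕ → Sg
  | 0 => w0
  | (n + 1) => M.next (row w0 m n) (m * 2 ^ n)

/-- Row `n` is halting. -/
def Hlt (w0 : ℕ → Sg) (m n : ℕ) : Prop := ∃ k < m * 2 ^ n, M.hs (M.row w0 m n k) = some true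

end WM

/-- **Module WM (the machine).** -/
def StWM : Prop :=
  ∃ (Sg S R : Type) (_ : Fintype Sg) (_ : Fintype S) (_ : Fintype R) (M : WM Sg S R) (c : ℕ)
    (w0 : ℕ → ℕ → Sg), 1 ≤ c ∧
    (∀ a n, ∃ b : Bool, (∃ k < (a + c) * 2 ^ n, M.hs (M.row (w0 a) (a + c) n k) = some b) ∧
      ∀ k < (a + c) * 2 ^ n, M.hs (M.row (w0 a) (a + c) n k) = none ∨
        M.hs (M.row (w0 a) (a + c) n k) = some b) ∧
    (∀ a, ¬ M.Hlt (w0 a) (a + c) 0) ∧
    (¬ ComputablePred fun a => ∃ n, M.Hlt (w0 a) (a + c) n) ∧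
    (ComputablePred fun x : ℕ × ℕ => ∃ n ≤ x.2, M.Hlt (w0 x.1) (x.1 + c) n)

end Pool.Agent.Helper32.LD
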