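import Pool.Agent.Helper32.LD.StT2
import Pool.Agent.Helper32.LD.StW

/-!
# LD project, tiling part: finite graphs which look locally like the binary tiling. Statements.
-/

set_option autoImplicit false

namespace Pool.Agent.Helper32.LD

open Pool.Agent.Helper2.LD

/-- Macro structure of a finite graph which looks locally like the binary tiling: `Rr g h`: `h` is
the right neighbour of `g`; `Dd g h`: `h` is below `g`; `β` are the base labels. -/
structure MacS {T I : Type} (m t : ℕ) (Rr Dd : T → T → Prop) (β : T → I) (b : ℕ → ℕ → I) :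
    Prop where
  fr : ∀ g h h', Rr g h → Rr g h' → h = h'
  ir : ∀ g g' h, Rr g h → Rr g' h → g = g'
  fd : ∀ g h h', Dd g h → Dd g h' → h = h'
  id : ∀ g g' h, Dd g h → Dd g' h → g = g'
  mod : ∀ g, ∃ n k, n ≤ t ∧ k ≤ m * 2 ^ n ∧ β g = b n k ∧
    (k < m * 2 ^ n → ∃ h, Rr g h ∧ β h = b n (k + 1)) ∧
    (0 < k → ∃ h, Rr h g ∧ β h = b n (k - 1)) ∧
    (n < t → ∃ h, Dd g h ∧ β h = b (n + 1) (2 * k)) ∧
    (0 < n → k % 2 = 0 → ∃ h, Dd h g ∧ β h = b (n - 1) (k / 2)) ∧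
    (n < t → k < m * 2 ^ n → ∃ h1 h2 h3 h4, Rr g h1 ∧ Dd h1 h2 ∧ Rr h3 h2 ∧ Rr h4 h3 ∧ Dd g h4 ∧
      β h1 = b n (k + 1) ∧ β h2 = b (n + 1) (2 * k + 2) ∧ β h3 = b (n + 1) (2 * k + 1) ∧
      β h4 = b (n + 1) (2 * k)) ∧
    (k = m * 2 ^ n → ∀ h, ¬ Rr g h) ∧ (k = 0 → ∀ h, ¬ Rr h g) ∧
    (n = t → ∀ h, ¬ Dd g h) ∧ (n = 0 → ∀ h, ¬ Dd h g)

/-- The path along the macro edge of direction `d` from `g` to `h` in a labelled graph. -/
def Pth {I W : Type} (al : ℕ) (M : SimpleGraph W) (L : W → LbT I al) (d : Bool) (g h : W) : Prop :=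
  (L g).1 = none ∧ (L h).1 = none ∧ ∃ p : ℕ → W, p 0 = g ∧ p al = h ∧
    (∀ i < al, M.Adj (p i) (p (i + 1))) ∧
    ∀ i, 0 < i → i < al → (L (p i)).2.1 = (L g).2.1 ∧
      ∃ j : Fin (al - 1), j.val = i - 1 ∧ (L (p i)).1 = some (d, j)

/-- The axioms on labels of the core. -/
structure LabAx {V Q Λ B FB : Type} (N : ℕ) (c : Core V Q Λ B FB) : Prop where
  k5 : ∀ x y, c.G.edist x y ≤ ((4 * N + 2 : ℕ) : ℕ∞) → c.bs (c.lb x) = c.bs (c.lb y) → x = y
  k6 : ∀ x x' w, c.lb x = c.lb x' → c.G.Adj x w →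
    ∃ w', c.G.Adj x' w' ∧ c.bs (c.lb w') = c.bs (c.lb w)

/-- **Module FA** (neighbours in a locally similar graph). -/
structure StFA : Prop where
  /-- two neighbours with the same basic label are equal -/
  uniq : ∀ {V Q Λ B FB : Type} (N e : ℕ) (c : Core V Q Λ B FB), LabAx N c →
    ∀ {W : Type} (M : SimpleGraph W) (L : W → Λ), LocLike e c M L →
    ∀ g g' g'', M.Adj g g' → M.Adj g g'' → c.bs (L g') = c.bs (L g'') → g' = g''
  /-- every vertex with the label of `g` describes the basic labels of the neighbours of `g` -/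
  mod : ∀ {V Q Λ B FB : Type} (N e : ℕ) (c : Core V Q Λ B FB), LabAx N c →
    ∀ {W : Type} (M : SimpleGraph W) (L : W → Λ), LocLike e c M L →
    ∀ g u, L g = c.lb u → (∀ g', M.Adj g g' → ∃ w, c.G.Adj u w ∧ c.bs (L g') = c.bs (c.lb w)) ∧
      ∀ w, c.G.Adj u w → ∃ g', M.Adj g g' ∧ c.bs (L g') = c.bs (c.lb w)

/-- **Module FB** (arcs at the chosen model are lifted). -/
def StFB : Prop :=
  ∀ {I : Type} (m t al e : ℕ) (inf : ℕ → ℕ → I), 1 ≤ m → 1 ≤ t → 20 ≤ al → 4 * e = 5 * al →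
    MCAx (bt m t) → ∀ {W : Type} (M : SimpleGraph W) (L : W → LbT I al),
    LocLike e (btc m t al inf) M L → ∀ g, (L g).1 = none →
    ∃ x : BX m t, L g = lbB m t al inf (Sum.inl x) ∧
      (∀ A : BE m t × Bool, (bt m t).src A = x → ∃ p : ℕ → W, p 0 = g ∧
        (∀ i < al, M.Adj (p i) (p (i + 1))) ∧
        ∀ i ≤ al, L (p i) = lbB m t al inf ((bt m t).pt al A i)) ∧
      (∀ (f : BF m t) (i0 : ZMod 5), (bt m t).src ((bt m t).arc f i0) = x →
        ∃ p : ℕ → W, p 0 = g ∧ p (5 * al) = g ∧ (∀ i < 5 * al, M.Adj (p i) (p (i + 1))) ∧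
        ∀ (j i : ℕ), j < 5 → i ≤ al → L (p (j * al + i)) =
          lbB m t al inf ((bt m t).pt al ((bt m t).arc f (i0 + (j : ZMod 5))) i))

/-- **Module FC** (functionality of the macro steps). -/
def StFC : Prop :=
  ∀ {I : Type} (m t al e : ℕ) (inf : ℕ → ℕ → I), 1 ≤ m → 1 ≤ t → 20 ≤ al → 4 * e = 5 * al →
    MCAx (bt m t) → LabAx (e + 4) (btc m t al inf) →
    ∀ {W : Type} (M : SimpleGraph W) (L : W → LbT I al),
    LocLike e (btc m t al inf) M L → ∀ d,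
    (∀ g h h', Pth al M L d g h → Pth al M L d g h' → h = h') ∧
    (∀ g g' h, Pth al M L d g h → Pth al M L d g' h → g = g') ∧
    (∀ g h (x : BX m t), L g = lbB m t al inf (Sum.inl x) → Pth al M L d g h →
      (d = false → x.1.2 < m * 2 ^ x.1.1) ∧ (d = true → x.1.1 < t)) ∧
    (∀ g h (x : BX m t), L h = lbB m t al inf (Sum.inl x) → Pth al M L d g h →
      (d = false → 0 < x.1.2) ∧ (d = true → 0 < x.1.1)) ∧
    (Nonempty W → ∃ g, (L g).1 = none)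

/-- **Module F1** (the macro structure). -/
def StF1 : Prop :=
  ∀ {I : Type} (m t al e : ℕ) (inf : ℕ → ℕ → I), 1 ≤ m → 1 ≤ t → 20 ≤ al → 4 * e = 5 * al →
    MCAx (bt m t) → LabAx (e + 4) (btc m t al inf) →
    ∀ {W : Type} (M : SimpleGraph W) (L : W → LbT I al),
    LocLike e (btc m t al inf) M L → Nonempty W → (∃ g, (L g).1 = none) ∧
    MacS (T := {g : W // (L g).1 = none}) m t (fun g h => Pth al M L false g.1 h.1)
      (fun g h => Pth al M L true g.1 h.1) (fun g => (L g.1).2.1) (bl inf)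

/-! ## The information in the labels -/

/-- Information in the labels: index in the top row, bottom flag, left flag, symbol to the right,
states of the two passes. -/
abbrev Inf (Sg S R : Type) (m : ℕ) : Type :=
  Option (Fin (m + 1)) × Bool × Bool × Option Sg × S × R

/-- The information of the tiling of a run. -/
def infW {Sg S R : Type} (M : WM Sg S R) (w0 : ℕ → Sg) (m t : ℕ) (n k : ℕ) : Inf Sg S R m :=
  (if n = 0 then some (Fin.ofNat (m + 1) k) else none, decide (n = t), decide (k = 0),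
    if k < m * 2 ^ n then some (M.row w0 m n k) else none, M.sl (M.row w0 m n) k,
    M.sr (M.row w0 m n) (m * 2 ^ n) k)

/-- **Module F2a** (there is a vertex in the top row). -/
def StF2a : Prop :=
  ∀ {T I : Type} [Finite T] [Nonempty T] (m t : ℕ) (Rr Dd : T → T → Prop) (β : T → BL I)
    (inf : ℕ → ℕ → I), 1 ≤ m → 1 ≤ t → MacS m t Rr Dd β (bl inf) →
    (∃ P : I → Prop, ∀ n k, n ≤ t → k ≤ m * 2 ^ n → (P (inf n k) ↔ n = t)) →
    ∃ g k, k ≤ m ∧ β g = bl inf 0 k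

/-- The heads in the rows: row `n` contains heads, all of the same kind, halting iff `n = t`. -/
def HeadOK {Sg S R : Type} (M : WM Sg S R) (w0 : ℕ → Sg) (m t : ℕ) : Prop :=
  ∀ n ≤ t, ∃ b : Bool, (∃ k < m * 2 ^ n, M.hs (M.row w0 m n k) = some b) ∧
    (∀ k < m * 2 ^ n, M.hs (M.row w0 m n k) = none ∨ M.hs (M.row w0 m n k) = some b) ∧
    (b = true ↔ n = t)

/-- A correct copy of the row `n`. -/
structure RowOK {Sg S R T : Type} (M : WM Sg S R) (w0 : ℕ → Sg) (m t : ℕ) (Rr : T → T → Prop)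
    (β : T → BL (Inf Sg S R m)) (n : ℕ) (ρ : ℕ → T) : Prop where
  rr : ∀ k < m * 2 ^ n, Rr (ρ k) (ρ (k + 1))
  sym : ∀ k < m * 2 ^ n, (β (ρ k)).2.2.2.2.2.1 = some (M.row w0 m n k)
  right : (β (ρ (m * 2 ^ n))).2.2.2.2.2.1 = none
  left : (β (ρ 0)).2.2.2.2.1 = true
  bot : ∀ k ≤ m * 2 ^ n, (β (ρ k)).2.2.2.1 = decide (n = t)

/-- **Module F2t** (the top row). -/
def StF2t : Prop :=
  ∀ {Sg S R T : Type} (M : WM Sg S R) (w0 : ℕ → Sg) (m t : ℕ) (Rr Dd : T → T → Prop)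
    (β : T → BL (Inf Sg S R m)), 1 ≤ m → 1 ≤ t → MacS m t Rr Dd β (bl (infW M w0 m t)) →
    ∀ g k, k ≤ m → β g = bl (infW M w0 m t) 0 k →
    ∃ ρ, RowOK M w0 m t Rr β 0 ρ ∧ ∀ h, ¬ Dd h (ρ 0)

/-- **Module F2s** (from one row to the next one). -/
def StF2s : Prop :=
  ∀ {Sg S R T : Type} (M : WM Sg S R) (w0 : ℕ → Sg) (m t : ℕ) (Rr Dd : T → T → Prop)
    (β : T → BL (Inf Sg S R m)), 1 ≤ m → 1 ≤ t → HeadOK M w0 m t →
    MacS m t Rr Dd β (bl (infW M w0 m t)) →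
    ∀ n < t, ∀ ρ, RowOK M w0 m t Rr β n ρ →
    ∃ ρ', RowOK M w0 m t Rr β (n + 1) ρ' ∧ Dd (ρ 0) (ρ' 0)

/-- **Module F2** (size of a locally similar graph). -/
def StF2 : Prop :=
  ∀ {Sg S R T : Type} [Finite T] [Nonempty T] (M : WM Sg S R) (w0 : ℕ → Sg) (m t : ℕ)
    (Rr Dd : T → T → Prop) (β : T → BL (Inf Sg S R m)), 1 ≤ m → 1 ≤ t → HeadOK M w0 m t →
    MacS m t Rr Dd β (bl (infW M w0 m t)) → t < Nat.card T

/-- **Module CD** (the numerical estimate). -/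
def StCD : Prop :=
  ∀ (i c : ℕ), ∃ K0 : ℕ, ∀ a : ℕ,
    let k := 4 * (a + K0) + 5
    let al := 4 * EE k / 5
    60 ≤ k ∧ 20 ≤ al ∧ al % 2 = 0 ∧ 4 * EE k = 5 * al ∧ NN k = EE k + 4 ∧
    ((1 + 2 * (al - 1)) * ((2 ^ 25 * ((a + c + 2) * i)) * (2 ^ 25 * ((a + c + 2) * i) + 1) ^ 5)) *
        (2 * NN k + 2) +
      ((1 + 2 * (al - 1)) * (2 ^ 25 * ((a + c + 2) * i))) * (2 ^ 25 * ((a + c + 2) * i)) +
      (2 * NN k + 1) + 4 < 2 ^ (SS k - 4)

end Pool.Agent.Helper32.LD
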