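import Pool.Agent.Helper32.LD.StT1

/-!
# LD project, tiling part: module IS
-/

set_option autoImplicit false

namespace Pool.Agent.Helper32.LD

open Pool.Agent.Helper2.LD

theorem tIS (hD : StD12) : StIS := by
  intro V G r hb hk p hadj hnb
  have hN : NoCyc G 0 := by
    intro v c hc
    have := hc.three_le_length
    omega
  have h2 := (hD G 0 hb hN).2.1
  intro j
  induction j using Nat.strong_induction_on with
  | _ j ih =>
    intro hj
    rcases j with _ | _ | j
    · simp
    · have h1 : G.edist (p 0) (p 1) = 1 := SimpleGraph.edist_eq_one_iff_adj.2 (hadj 0)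
      simpa using h1
    · have e1 := ih (j + 1) (by omega) (by omega)
      have e0 := ih j (by omega) (by omega)
      have e1' : G.edist (p (j + 1)) (p 0) = ((j + 1 : ℕ) : ℕ∞) := by
        rw [SimpleGraph.edist_comm]; exact e1
      rcases h2 (p (j + 1)) (p 0) (p (j + 2)) (j + 1) e1' (hadj (j + 1)) with h3 | ⟨d', hd, h3⟩
      · rw [SimpleGraph.edist_comm]
        exact h3
      · exfalso
        have hd' : d' = j := by omega
        subst hd'
        refine hnb d' (hk (p 0) (p (d' + 1)) (p d') (p (d' + 2)) d' (by omega) e1
          (hadj d').symm e0 (hadj (d' + 1)) ?_)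
        rw [SimpleGraph.edist_comm]
        exact h3

end Pool.Agent.Helper32.LD
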